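import Pool.Agent.H986R2.TR.Spec
import Pool.Agent.H24R2.JP.Zeta

set_option autoImplicit false

/-!
Task 47 (by helper9): a subconvexity bound for zeta on the critical line from van der Corput's bound
near the line `Re s = 1` and the convexity bound.
-/

namespace Pool.Agent.H986R2.TR

open Complex Filter Topology MeasureTheory Set
open Pool.Agent.H24R2.JP (XX HH Om)
open Pool.Agent.H986R2.K4 (ZB S_SAB S_HH S_PL S_VDC S_V0 S_A1 xi)

namespace SubAux

theorem HH_ne (t : ℝ) : HH (I * t) ≠ 0 := by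
  unfold Pool.Agent.H24R2.JP.HH
  refine mul_ne_zero ?_ (Complex.Gammaℝ_ne_zero_of_re_pos (by simp))
  have e : (4 * (I * t) ^ 2 - 1 : ℂ) = ((-(4 * t ^ 2) - 1 : ℝ) : ℂ) := by
    rw [mul_pow, I_sq]
    push_cast
    ring
  rw [e, Complex.ofReal_ne_zero]
  nlinarith [sq_nonneg t]

theorem bdd (T0 : ℝ) : ∃ M : ℝ, 0 < M ∧ ∀ t : ℝ, 2 ≤ t → t ≤ T0 →
    ‖riemannZeta (1 / 2 + t * I)‖ ≤ M := by
  have hc : ContinuousOn (fun t : ℝ => riemannZeta (1 / 2 + t * I)) (Icc 2 T0) := by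
    intro t ht
    have hs1 : (1 / 2 + t * I : ℂ) ≠ 1 := by
      intro h
      have := congrArg Complex.re h
      simp at this
    have h2 : ContinuousAt (fun t : ℝ => (1 / 2 + t * I : ℂ)) t := by fun_prop
    exact (ContinuousAt.comp (f := fun t : ℝ => (1 / 2 + t * I : ℂ))
      (differentiableAt_riemannZeta hs1).continuousAt h2).continuousWithinAt
  obtain ⟨M, hM⟩ := isCompact_Icc.exists_bound_of_continuousOn hc
  exact ⟨max M 1, lt_of_lt_of_le one_pos (le_max_right _ _),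
    fun t h1 h2 => (hM t ⟨h1, h2⟩).trans (le_max_left _ _)⟩

end SubAux

theorem sub (h1 : S_VDC) (h2 : S_PL) : S_SUB := by
  obtain ⟨e0, he0, he04, hv⟩ := h1 (1 / 4) (by norm_num)
  obtain ⟨e, he⟩ : ∃ e : ℝ, e = min e0 (1 / 8) := ⟨_, rfl⟩
  have hep : 0 < e := by rw [he]; exact lt_min he0 (by norm_num)
  have hee0 : e ≤ e0 := by rw [he]; exact min_le_left _ _
  have he8 : e ≤ 1 / 8 := by rw [he]; exact min_le_right _ _
  obtain ⟨C, hC, hCb⟩ := hv e hep hee0
  obtain ⟨C', T0, hC', hT0, hP⟩ := h2 (1 / 2 - e) (1 / 4 * e) C 2 1 (by linarith) (by linarith)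
    (by positivity) (by linarith) hC (by norm_num) le_rfl (by
      intro t ht
      have := hCb t ht
      have e1 : (1 / 2 + ((1 / 2 - e : ℝ) : ℂ) + t * I : ℂ) = 1 - e + t * I := by
        push_cast; ring
      rw [e1]
      exact this)
  refine ⟨1 / 4 - e / 4, by linarith, by linarith, ?_⟩
  intro ε hε
  obtain ⟨M, hM, hMb⟩ := SubAux.bdd T0
  refine ⟨C' + M, by linarith, ?_⟩
  intro t ht
  have ht0 : 0 < t := by linarith
  have hge1 : 1 ≤ t ^ (1 / 4 - e / 4 + ε) := Real.one_le_rpow (by linarith) (by linarith)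
  rcases le_total t T0 with h | h
  · have := hMb t ht h
    nlinarith
  · have h3 := hP t 0 h (by simp; linarith) (by simp)
    rw [add_zero] at h3
    have hX : XX (I * t) = HH (I * t) * riemannZeta (1 / 2 + I * t) :=
      Pool.Agent.H24R2.JP.ZetaTask.part1 _ (by simpa using ht0)
    have hHn : 0 < ‖HH (I * t)‖ := norm_pos_iff.mpr (SubAux.HH_ne t)
    have e2 : (1 / 2 + I * t : ℂ) = 1 / 2 + t * I := by ring
    rw [hX, norm_mul, e2] at h3
    have h4 : ‖riemannZeta (1 / 2 + t * I)‖ ≤ C' * (t ^ (1 / 4 * e) *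
        Real.exp ((1 / 2 - e) * Om t)) := by
      have h5 : ‖HH (I * t)‖ * ‖riemannZeta (1 / 2 + t * I)‖ ≤ ‖HH (I * t)‖ *
          (C' * (t ^ (1 / 4 * e) * Real.exp ((1 / 2 - e) * Om t))) := by
        refine h3.trans (le_of_eq ?_)
        ring
      exact le_of_mul_le_mul_left h5 hHn
    have h6 : t ^ (1 / 4 * e) * Real.exp ((1 / 2 - e) * Om t) = t ^ (1 / 4 - e / 4) := by
      rw [Real.rpow_def_of_pos ht0, Real.rpow_def_of_pos ht0, ← Real.exp_add]
      congr 1
      unfold Pool.Agent.H24R2.JP.Om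
      ring
    rw [h6] at h4
    have h7 : t ^ (1 / 4 - e / 4) ≤ t ^ (1 / 4 - e / 4 + ε) :=
      Real.rpow_le_rpow_of_exponent_le (by linarith) (by linarith)
    calc ‖riemannZeta (1 / 2 + t * I)‖ ≤ C' * t ^ (1 / 4 - e / 4) := h4
      _ ≤ C' * t ^ (1 / 4 - e / 4 + ε) := mul_le_mul_of_nonneg_left h7 hC'.le
      _ ≤ (C' + M) * t ^ (1 / 4 - e / 4 + ε) := by nlinarith

end Pool.Agent.H986R2.TR
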