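import Pool.Agent.H986R2.TR.Spec3
import Pool.Agent.H986R2.TR.Sub
import Pool.Agent.H24R2.JP.Zeta

set_option autoImplicit false

/-!
Two values of `ω` bound the order of zeta.
-/

namespace Pool.Agent.H986R2.TR

open Complex Filter Topology MeasureTheory Set
open Pool.Agent.H24R2.JP (XX HH Om)
open Pool.Agent.H986R2.K4 (ZB S_SAB S_HH S_PL S_VDC S_V0 S_A1 xi)

theorem ord3 (h1 : S_TUP2) (h2 : S_PL) (h3 : S_HH) : S_ORD3 := by
  intro h y1 T1 ω₁ ω₂ hh0 hh1 hy0 hy1 hω1 hω2 hne hL1 hL2 ε hε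
  obtain ⟨e, he0, he1, he2, he3⟩ : ∃ e : ℝ, 0 < e ∧ e ≤ ε / 2 ∧ e ≤ 1 / 4 ∧ e ≤ 1 - h - y1 :=
    ⟨min (ε / 2) (min (1 / 4) (1 - h - y1)),
      lt_min (by linarith) (lt_min (by norm_num) (by linarith)), min_le_left _ _,
      (min_le_right _ _).trans (min_le_left _ _), (min_le_right _ _).trans (min_le_right _ _)⟩
  obtain ⟨T2, hT2, hup⟩ := h1 h y1 e e hh0 hh1.le hy0 hy1 he0 he2 he0
  obtain ⟨K, hK, hHH⟩ := h3
  obtain ⟨T4, hT4, hHH⟩ := hHH 2 (by norm_num)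
  have hdn : 0 < ‖ω₂ - ω₁‖ := norm_pos_iff.2 (sub_ne_zero.2 (Ne.symm hne))
  obtain ⟨x0, hx0⟩ : ∃ x0 : ℝ, x0 = h + y1 + e := ⟨_, rfl⟩
  obtain ⟨C', T0, hC', hT0, hP⟩ := h2 x0 e (2 / ‖ω₂ - ω₁‖) (max (max T2 T4) (T1 + 20)) 1
    (by linarith) (by linarith) he0.le (by linarith) (by positivity)
    (le_trans (by linarith : (1 : ℝ) ≤ T2) (le_trans (le_max_left _ _) (le_max_left _ _))) le_rfl (by
      intro t ht
      have htT2 : T2 ≤ t := le_trans (le_trans (le_max_left _ _) (le_max_left _ _)) ht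
      have htT4 : T4 ≤ t := le_trans (le_trans (le_max_right _ _) (le_max_left _ _)) ht
      have htT1 : T1 + 20 ≤ t := le_trans (le_max_right _ _) ht
      have ht0 : 0 < t := by linarith
      have hw : ∀ ω : ℂ, ‖ω‖ = 1 → OL2 h ω y1 T1 →
          ‖TX h ω (I * t + ((y1 + e : ℝ) : ℂ))‖ ≤ t ^ e * ‖HH (I * t + (x0 : ℂ))‖ := by
        intro ω hω hL
        have := hup t ω htT2 hω (by
          intro z hz hzT
          refine hL z hz ?_
          have := abs_le.1 hzT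
          rw [le_abs]
          left
          linarith) ((y1 + e : ℝ) : ℂ) (by rw [ofReal_re]) (by rw [ofReal_re]; linarith) (by simp)
        have e1 : I * (t : ℂ) + (((y1 + e : ℝ) : ℂ) + (h : ℂ)) = I * t + (x0 : ℂ) := by
          rw [hx0]; push_cast; ring
        rwa [e1] at this
      have g1 := hw ω₁ hω1 hL1
      have g2 := hw ω₂ hω2 hL2
      have e2 : (ω₂ - ω₁) * XX (I * t + (x0 : ℂ)) = ω₂ * TX h ω₁ (I * t + ((y1 + e : ℝ) : ℂ)) -
          ω₁ * TX h ω₂ (I * t + ((y1 + e : ℝ) : ℂ)) := by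
        have e3 : I * (t : ℂ) + ((y1 + e : ℝ) : ℂ) + (h : ℂ) = I * t + (x0 : ℂ) := by
          rw [hx0]; push_cast; ring
        unfold TX
        rw [e3]
        ring
      have e4 : ‖ω₂ - ω₁‖ * ‖XX (I * t + (x0 : ℂ))‖ ≤ 2 * (t ^ e * ‖HH (I * t + (x0 : ℂ))‖) := by
        rw [← norm_mul, e2]
        refine (norm_sub_le _ _).trans ?_
        rw [norm_mul, norm_mul, hω1, hω2, one_mul, one_mul]
        linarith
      have hHne : HH (I * t + (x0 : ℂ)) ≠ 0 := (hHH t (x0 : ℂ) htT4 (by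
        rw [norm_real, Real.norm_eq_abs, abs_le]
        constructor <;> linarith)).2.1
      have hHpos : 0 < ‖HH (I * t + (x0 : ℂ))‖ := norm_pos_iff.2 hHne
      have hX : XX (I * t + (x0 : ℂ)) = HH (I * t + (x0 : ℂ)) *
          riemannZeta (1 / 2 + (I * t + (x0 : ℂ))) :=
        Pool.Agent.H24R2.JP.ZetaTask.part1 _ (by simpa using ht0)
      rw [hX, norm_mul] at e4
      have e5 : (1 / 2 : ℂ) + (I * t + (x0 : ℂ)) = 1 / 2 + x0 + t * I := by ring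
      rw [e5] at e4
      have e6 : ‖HH (I * t + (x0 : ℂ))‖ * (‖ω₂ - ω₁‖ * ‖riemannZeta (1 / 2 + x0 + t * I)‖) ≤
          ‖HH (I * t + (x0 : ℂ))‖ * (2 * t ^ e) := by
        refine le_trans (le_of_eq ?_) (e4.trans (le_of_eq ?_)) <;> ring
      have e7 := le_of_mul_le_mul_left e6 hHpos
      have e8 : 2 / ‖ω₂ - ω₁‖ * t ^ e = 2 * t ^ e / ‖ω₂ - ω₁‖ := by ring
      rw [e8, le_div_iff₀ hdn]
      linarith)
  obtain ⟨M, hM, hMb⟩ := SubAux.bdd T0
  refine ⟨C' + M, by linarith, ?_⟩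
  intro t ht
  have ht0 : 0 < t := by linarith
  have hge1 : 1 ≤ t ^ ((h + y1) / 2 + ε) := Real.one_le_rpow (by linarith) (by linarith)
  rcases le_total t T0 with h' | h'
  · have := hMb t ht h'
    nlinarith
  · have h3 := hP t 0 h' (by simp; linarith) (by simp)
    rw [add_zero] at h3
    have hX : XX (I * t) = HH (I * t) * riemannZeta (1 / 2 + I * t) :=
      Pool.Agent.H24R2.JP.ZetaTask.part1 _ (by simpa using ht0)
    have hHn : 0 < ‖HH (I * t)‖ := norm_pos_iff.mpr (SubAux.HH_ne t)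
    have e2 : (1 / 2 + I * t : ℂ) = 1 / 2 + t * I := by ring
    rw [hX, norm_mul, e2] at h3
    have h4 : ‖riemannZeta (1 / 2 + t * I)‖ ≤ C' * (t ^ e * Real.exp (x0 * Om t)) := by
      have h5 : ‖HH (I * t)‖ * ‖riemannZeta (1 / 2 + t * I)‖ ≤ ‖HH (I * t)‖ *
          (C' * (t ^ e * Real.exp (x0 * Om t))) := by
        refine h3.trans (le_of_eq ?_)
        ring
      exact le_of_mul_le_mul_left h5 hHn
    have h6 : t ^ e * Real.exp (x0 * Om t) = t ^ (e + x0 / 2) := by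
      rw [Real.rpow_def_of_pos ht0, Real.rpow_def_of_pos ht0, ← Real.exp_add]
      congr 1
      unfold Pool.Agent.H24R2.JP.Om
      ring
    rw [h6] at h4
    have h7 : t ^ (e + x0 / 2) ≤ t ^ ((h + y1) / 2 + ε) :=
      Real.rpow_le_rpow_of_exponent_le (by linarith) (by linarith)
    calc ‖riemannZeta (1 / 2 + t * I)‖ ≤ C' * t ^ (e + x0 / 2) := h4
      _ ≤ C' * t ^ ((h + y1) / 2 + ε) := mul_le_mul_of_nonneg_left h7 hC'.le
      _ ≤ (C' + M) * t ^ ((h + y1) / 2 + ε) := by nlinarith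

/-- The unconditional converse from two values of `ω`. -/
theorem tc3 (h1 : S_ORD3) (h2 : S_TC2) (h y y1 T1 : ℝ) (ω₁ ω₂ : ℂ) (hh0 : 0 < h) (hh1 : h < 1 / 2)
    (hy0 : 0 ≤ y1) (hω1 : ‖ω₁‖ = 1) (hω2 : ‖ω₂‖ = 1) (hne : ω₁ ≠ ω₂) (hL1 : OL2 h ω₁ y1 T1)
    (hL2 : OL2 h ω₂ y1 T1) (hy : h + y1 < y) : ∃ T2 : ℝ, ZF y T2 := by
  rcases le_or_gt (1 / 2) y with h5 | h5
  · exact ⟨0, fun s hs _ => riemannZeta_ne_zero_of_one_lt_re (by linarith)⟩
  · exact h2 ((h + y1) / 2) h y y1 T1 ω₁ (by linarith) (by linarith)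
      (h1 h y1 T1 ω₁ ω₂ hh0 hh1 hy0 (by linarith) hω1 hω2 hne hL1 hL2) hh0 hh1 hy0 hω1 hL1 hy
      (by linarith)

end Pool.Agent.H986R2.TR
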