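import Pool.Agent.H986R2.TR.Spec
import Pool.Agent.H986R2.K4.PL

set_option autoImplicit false

/-! Task 43: convexity bound between two vertical lines. -/

namespace Pool.Agent.H986R2.TR

open Complex Filter Topology MeasureTheory Set
open Pool.Agent.H24R2.JP (XX HH Om)
open Pool.Agent.H986R2.K4 (ZB S_SAB S_HH S_PL S_VDC S_V0 S_A1 xi)

namespace PL2Aux

open Pool.Agent.H986R2.K4.PLAux

/-- the norm of the auxiliary function -/
lemma Gn (T : ℝ) (z : ℂ) : ‖XX z * cexp ((z - I * T) ^ 2)‖ =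
    ‖XX z‖ * Real.exp (z.re ^ 2 - (z.im - T) ^ 2) := by
  simp only [norm_mul, Complex.norm_exp]
  congr 2
  rw [sq, Complex.mul_re]
  simp
  ring

/-- bound on one vertical line -/
lemma side (hHH : S_HH) (x0 ν C t1 : ℝ) (hx0 : 0 ≤ x0) (hx1 : x0 ≤ 1) (hν0 : 0 ≤ ν) (hν1 : ν ≤ 1)
    (hC : 0 < C) (ht1 : 1 ≤ t1)
    (hz : ∀ t : ℝ, t1 ≤ t → ‖riemannZeta (1 / 2 + x0 + t * I)‖ ≤ C * t ^ ν) :
    ∃ c T0 : ℝ, 0 < c ∧ 2 ≤ T0 ∧ ∀ T : ℝ, T0 ≤ T → ∀ y : ℝ,
      ‖XX (x0 + I * y)‖ * Real.exp (x0 ^ 2 - (y - T) ^ 2) ≤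
        c * (T ^ ν * (Real.exp (x0 * Om T) * ‖HH (I * T)‖)) := by
  obtain ⟨K, hK, hv⟩ := vert
  obtain ⟨B, hB, hbd⟩ := bdd
  obtain ⟨K2, hK2, hHH1⟩ := hHH
  obtain ⟨T1, hT1, hHH2⟩ := hHH1 1 le_rfl
  have hx0a : |x0| ≤ 1 := by rw [abs_of_nonneg hx0]; exact hx1
  -- threshold
  obtain ⟨Y, hY400, hYt⟩ : ∃ Y : ℝ, 400 ≤ Y ∧ t1 ≤ Y := ⟨max 400 t1, le_max_left _ _, le_max_right _ _⟩
  have hne : HH (x0 + I * Y) ≠ 0 := by
    apply Pool.Agent.H24R2.JP.StirAux.HH_ne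
    simp
    linarith
  have hh0 : 0 < ‖HH (x0 + I * Y)‖ := norm_pos_iff.2 hne
  -- constants
  obtain ⟨c1, hc1⟩ : ∃ c1 : ℝ, c1 = C * Real.exp ((K + 1) ^ 2 + 1 + K2) := ⟨_, rfl⟩
  obtain ⟨c2, hc2⟩ : ∃ c2 : ℝ, c2 = B / ‖HH (x0 + I * Y)‖ * Real.exp (1 + K2 + K ^ 2 + K * Y) :=
    ⟨_, rfl⟩
  have hc1p : 0 < c1 := by rw [hc1]; positivity
  have hc2p : 0 < c2 := by rw [hc2]; positivity
  refine ⟨c1 + c2, max Y (max T1 2), by positivity,
    (le_max_right _ _).trans' (le_max_right _ _), ?_⟩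
  intro T hT y
  have hTY : Y ≤ T := (le_max_left _ _).trans hT
  have hTT : T1 ≤ T := ((le_max_left _ _).trans (le_max_right _ _)).trans hT
  have hT400 : 400 ≤ T := hY400.trans hTY
  have hT0 : 0 < T := by linarith
  have hTν : 1 ≤ T ^ ν := Real.one_le_rpow (by linarith) hν0
  -- the quantity at height `T`
  obtain ⟨M0, hM0⟩ : ∃ M0 : ℝ, M0 = Real.exp (x0 * Om T) * ‖HH (I * T)‖ := ⟨_, rfl⟩
  have hM0n : 0 ≤ M0 := by rw [hM0]; positivity
  have hup : ‖HH (x0 + I * T)‖ ≤ Real.exp K2 * M0 := by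
    have h1 := (hHH2 T (x0 : ℂ) hTT (by
      rw [Complex.norm_real, Real.norm_eq_abs]; exact hx0a)).2.2.2.2
    rw [add_comm (I * (T : ℂ)) (x0 : ℂ), Complex.ofReal_re, mul_one, Real.exp_add] at h1
    rw [hM0]
    calc _ ≤ _ := h1
      _ = _ := by rw [mul_comm (Om T) x0]; ring
  rw [← hM0]
  have e1 : ((x0 : ℂ) + I * y).re = x0 := by simp
  have e2 : ((x0 : ℂ) + I * y).im = y := by simp
  have hMp : 0 ≤ T ^ ν * M0 := by positivity
  by_cases hy : Y ≤ |y|
  · -- the symmetric point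
    have hsym : ‖XX (x0 + I * y)‖ = ‖XX (x0 + I * (|y| : ℝ))‖ := by
      rcases le_total 0 y with h | h
      · rw [abs_of_nonneg h]
      · rw [abs_of_nonpos h]
        have : (x0 : ℂ) + I * ((-y : ℝ) : ℂ) = (starRingEnd ℂ) ((x0 : ℂ) + I * y) := by
          simp
        rw [this, Pool.Agent.H24R2.JP.B1h.XX_conj, RCLike.norm_conj]
    rw [hsym]
    set a : ℝ := |y| with ha
    have hsq : (a - T) ^ 2 ≤ (y - T) ^ 2 := by
      have h1 : y ≤ a := le_abs_self y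
      have h2 : a ^ 2 = y ^ 2 := sq_abs y
      nlinarith
    have ha400 : 400 ≤ a := hY400.trans hy
    have hXXa : XX (x0 + I * a) = HH (x0 + I * a) * riemannZeta (1 / 2 + (x0 + I * a)) :=
      Pool.Agent.H24R2.JP.ZetaTask.part1 _ (by simp; linarith)
    have hza := hz a (hYt.trans hy)
    have e3 : (1 / 2 : ℂ) + (x0 + I * a) = 1 / 2 + x0 + a * I := by ring
    rw [hXXa, e3, norm_mul]
    obtain ⟨D, hD⟩ : ∃ D : ℝ, D = |a - T| := ⟨_, rfl⟩
    have hD0 : 0 ≤ D := by rw [hD]; exact abs_nonneg _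
    have hD2 : D ^ 2 = (a - T) ^ 2 := by rw [hD, sq_abs]
    have h5 := hv x0 a T hx0a ha400 hT400
    rw [← hD] at h5
    have h6 : a ^ ν ≤ T ^ ν * Real.exp D := by
      have h7 : a ≤ T * (1 + D) := by
        have : a - T ≤ D := by rw [hD]; exact le_abs_self _
        nlinarith
      calc a ^ ν ≤ (T * (1 + D)) ^ ν := Real.rpow_le_rpow (by linarith) h7 hν0
        _ = T ^ ν * (1 + D) ^ ν := Real.mul_rpow hT0.le (by linarith)
        _ ≤ T ^ ν * Real.exp D := by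
          gcongr
          calc (1 + D) ^ ν ≤ (1 + D) ^ (1 : ℝ) :=
                Real.rpow_le_rpow_of_exponent_le (by linarith) hν1
            _ = 1 + D := Real.rpow_one _
            _ ≤ Real.exp D := by have := Real.add_one_le_exp D; linarith
    have h8 : Real.exp (x0 ^ 2 - (y - T) ^ 2) ≤ Real.exp (1 - D ^ 2) := by
      apply Real.exp_le_exp.2
      rw [hD2]
      nlinarith
    have h9 : (K + 1) * D - D ^ 2 ≤ (K + 1) ^ 2 := by
      nlinarith [sq_nonneg (D - (K + 1)), mul_nonneg hD0 hD0]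
    calc ‖HH (x0 + I * a)‖ * ‖riemannZeta (1 / 2 + x0 + a * I)‖ * Real.exp (x0 ^ 2 - (y - T) ^ 2)
        ≤ (Real.exp (K * D) * (Real.exp K2 * M0)) * (C * (T ^ ν * Real.exp D)) *
          Real.exp (1 - D ^ 2) := by
          have q1 : ‖HH (x0 + I * a)‖ ≤ Real.exp (K * D) * (Real.exp K2 * M0) :=
            h5.trans (mul_le_mul_of_nonneg_left hup (Real.exp_pos _).le)
          have q2 : ‖riemannZeta (1 / 2 + x0 + a * I)‖ ≤ C * (T ^ ν * Real.exp D) :=
            hza.trans (mul_le_mul_of_nonneg_left h6 hC.le)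
          gcongr
      _ = C * Real.exp (((K + 1) * D - D ^ 2) + 1 + K2) * (T ^ ν * M0) := by
          have : Real.exp (((K + 1) * D - D ^ 2) + 1 + K2) =
              Real.exp (K * D) * Real.exp K2 * Real.exp D * Real.exp (1 - D ^ 2) := by
            rw [← Real.exp_add, ← Real.exp_add, ← Real.exp_add]
            congr 1
            ring
          rw [this]
          ring
      _ ≤ c1 * (T ^ ν * M0) := by
          rw [hc1]
          have : Real.exp (((K + 1) * D - D ^ 2) + 1 + K2) ≤ Real.exp ((K + 1) ^ 2 + 1 + K2) :=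
            Real.exp_le_exp.2 (by linarith)
          gcongr
      _ ≤ (c1 + c2) * (T ^ ν * M0) := by
          apply mul_le_mul_of_nonneg_right _ hMp
          linarith
  · push Not at hy
    have hy1 : y ≤ Y := (le_abs_self y).trans hy.le
    have h1 : ‖XX (x0 + I * y)‖ ≤ B := hbd _ (by rw [e1]; exact hx0a)
    have h2 := hv x0 Y T hx0a hY400 hT400
    have hYT : |Y - T| = T - Y := by rw [abs_sub_comm]; exact abs_of_nonneg (by linarith)
    rw [hYT] at h2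
    have h3 : ‖HH (x0 + I * Y)‖ ≤ Real.exp (K * (T - Y)) * (Real.exp K2 * M0) :=
      h2.trans (mul_le_mul_of_nonneg_left hup (Real.exp_pos _).le)
    have h4 : 1 ≤ Real.exp (K * (T - Y)) * (Real.exp K2 * M0) / ‖HH (x0 + I * Y)‖ := by
      rwa [one_le_div hh0]
    have h5 : (T - Y) ^ 2 ≤ (y - T) ^ 2 := by nlinarith
    have h6 : Real.exp (x0 ^ 2 - (y - T) ^ 2) ≤ Real.exp (1 - (T - Y) ^ 2) := by
      apply Real.exp_le_exp.2
      nlinarith
    have h7 : K * (T - Y) - (T - Y) ^ 2 ≤ K ^ 2 + K * Y := by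
      nlinarith [sq_nonneg (T - Y - K), mul_nonneg (by linarith : (0 : ℝ) ≤ K)
        (by linarith : (0:ℝ) ≤ Y), sq_nonneg (T - Y)]
    calc ‖XX (x0 + I * y)‖ * Real.exp (x0 ^ 2 - (y - T) ^ 2)
        ≤ B * Real.exp (1 - (T - Y) ^ 2) := by gcongr
      _ = B * Real.exp (1 - (T - Y) ^ 2) * 1 := by ring
      _ ≤ B * Real.exp (1 - (T - Y) ^ 2) *
          (Real.exp (K * (T - Y)) * (Real.exp K2 * M0) / ‖HH (x0 + I * Y)‖) := by gcongr
      _ = B / ‖HH (x0 + I * Y)‖ * Real.exp (1 + K2 + (K * (T - Y) - (T - Y) ^ 2)) * M0 := by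
          have : Real.exp (1 + K2 + (K * (T - Y) - (T - Y) ^ 2)) =
              Real.exp (1 - (T - Y) ^ 2) * Real.exp (K * (T - Y)) * Real.exp K2 := by
            rw [← Real.exp_add, ← Real.exp_add]
            congr 1
            ring
          rw [this]
          ring
      _ ≤ c2 * M0 := by
          rw [hc2]
          have : Real.exp (1 + K2 + (K * (T - Y) - (T - Y) ^ 2)) ≤
              Real.exp (1 + K2 + K ^ 2 + K * Y) := Real.exp_le_exp.2 (by linarith)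
          gcongr
      _ ≤ (c1 + c2) * (T ^ ν * M0) := by
          have : M0 ≤ T ^ ν * M0 := by nlinarith
          calc c2 * M0 ≤ c2 * (T ^ ν * M0) := by gcongr
            _ ≤ _ := by
              apply mul_le_mul_of_nonneg_right _ hMp
              linarith

end PL2Aux

open PL2Aux Pool.Agent.H986R2.K4.PLAux in
theorem pl2 (h : S_HH) : S_PL2 := by
  intro x0 ν0 ν1 C t1 hx0 hx1 hν0 hν0' hν1 hν1' hC ht1 hz0 hz1
  obtain ⟨ca, Ta, hca, hTa, ha⟩ := side h 0 ν0 C t1 le_rfl zero_le_one hν0 hν0' hC ht1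
    (by simpa using hz0)
  obtain ⟨cb, Tb, hcb, hTb, hb⟩ := side h x0 ν1 C t1 hx0.le hx1 hν1 hν1' hC ht1 hz1
  obtain ⟨B, hB, hbd⟩ := bdd
  refine ⟨max ca cb, max Ta Tb, by positivity, hTa.trans (le_max_left _ _), ?_⟩
  intro T b hT hb0 hbx
  have hT1 : Ta ≤ T := (le_max_left _ _).trans hT
  have hT2 : Tb ≤ T := (le_max_right _ _).trans hT
  have hT0 : 0 < T := by linarith
  set c := max ca cb with hc
  have hcp : 0 < c := lt_of_lt_of_le hca (le_max_left _ _)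
  set A := ‖HH (I * T)‖ with hA
  have hA0 : 0 ≤ A := norm_nonneg _
  set G : ℂ → ℂ := fun z => XX z * cexp ((z - I * T) ^ 2) with hG
  have hGn : ∀ z : ℂ, ‖G z‖ = ‖XX z‖ * Real.exp (z.re ^ 2 - (z.im - T) ^ 2) := fun z => Gn T z
  set θ := b / x0 with hθ
  have hθ0 : 0 ≤ θ := div_nonneg hb0 hx0.le
  have hθ1 : θ ≤ 1 := (div_le_one hx0).2 hbx
  have h0 : ∀ z ∈ re ⁻¹' ({0} : Set ℝ), ‖G z‖ ≤ c * (T ^ ν0 * A) := by
    intro z hz
    have hz : z.re = 0 := hz
    rw [hGn, hz]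
    have h1 := ha T hT1 z.im
    have e3 : ((0 : ℝ) : ℂ) + I * z.im = z := by
      apply Complex.ext
      · simp [hz]
      · simp
    rw [e3, zero_mul, Real.exp_zero, one_mul] at h1
    refine h1.trans ?_
    gcongr
    exact le_max_left _ _
  have h1 : ∀ z ∈ re ⁻¹' ({x0} : Set ℝ), ‖G z‖ ≤ c * (T ^ ν1 * (Real.exp (x0 * Om T) * A)) := by
    intro z hz
    have hz : z.re = x0 := hz
    rw [hGn, hz]
    have h1 := hb T hT2 z.im
    have e3 : (x0 : ℂ) + I * z.im = z := by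
      apply Complex.ext
      · simp [hz]
      · simp
    rw [e3] at h1
    refine h1.trans ?_
    gcongr
    exact le_max_right _ _
  have hdiff : Differentiable ℂ G := by
    rw [hG]
    have := Pool.Agent.H24R2.JP.B1h.XX_diff
    fun_prop
  have hbdd : BddAbove ((norm ∘ G) '' HadamardThreeLines.verticalClosedStrip 0 x0) := by
    refine ⟨B * Real.exp 1, ?_⟩
    rintro _ ⟨w, hw, rfl⟩
    have hw' : w.re ∈ Icc 0 x0 := hw
    have hw1 : |w.re| ≤ 1 := by
      rw [abs_of_nonneg hw'.1]; exact hw'.2.trans hx1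
    rw [Function.comp_apply, hGn]
    have h3 : w.re ^ 2 ≤ 1 := by
      rw [← sq_abs]; nlinarith [abs_nonneg w.re]
    have h4 : Real.exp (w.re ^ 2 - (w.im - T) ^ 2) ≤ Real.exp 1 :=
      Real.exp_le_exp.2 (by nlinarith [sq_nonneg (w.im - T)])
    exact mul_le_mul (hbd w hw1) h4 (Real.exp_pos _).le hB.le
  have hre : (I * (T : ℂ) + b).re = b := by simp
  have him : (I * (T : ℂ) + b).im = T := by simp
  have key := HadamardThreeLines.norm_le_interp_of_mem_verticalClosedStrip' (f := G)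
    (z := I * T + b) (l := 0) (u := x0) hx0 (by
      show (I * (T : ℂ) + b).re ∈ Icc 0 x0
      rw [hre]; exact ⟨hb0, hbx⟩) hdiff.diffContOnCl hbdd h0 h1
  rw [hre, sub_zero, sub_zero, ← hθ] at key
  have h5 : ‖XX (I * T + b)‖ ≤ ‖G (I * T + b)‖ := by
    rw [hGn, hre, him]
    have : 1 ≤ Real.exp (b ^ 2 - (T - T) ^ 2) := by
      rw [sub_self]
      apply Real.one_le_exp
      nlinarith [sq_nonneg b]
    nlinarith [norm_nonneg (XX (I * (T : ℂ) + b))]
  refine h5.trans (key.trans (le_of_eq ?_))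
  have hxθ : x0 * θ = b := by rw [hθ]; field_simp
  have hTn : (0 : ℝ) ≤ T := hT0.le
  rw [Real.mul_rpow hcp.le (by positivity), Real.mul_rpow hcp.le (by positivity),
    Real.mul_rpow (by positivity) hA0, Real.mul_rpow (by positivity) (by positivity),
    Real.mul_rpow (by positivity) hA0, ← Real.rpow_mul hTn, ← Real.rpow_mul hTn, ← Real.exp_mul]
  have e4 : x0 * Om T * θ = b * Om T := by rw [← hxθ]; ring
  rw [e4]
  have e5 : T ^ ((1 - θ) * ν0 + θ * ν1) = T ^ (ν0 * (1 - θ)) * T ^ (ν1 * θ) := by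
    rw [← Real.rpow_add hT0]
    congr 1
    ring
  rw [e5]
  have e6 : c ^ (1 - θ) * c ^ θ = c := by
    rw [← Real.rpow_add hcp, sub_add_cancel, Real.rpow_one]
  have e7 : A ^ (1 - θ) * A ^ θ = A := by
    rcases hA0.eq_or_lt with h6 | h6
    · rw [← h6]
      rcases hθ0.eq_or_lt with h7 | h7
      · rw [← h7]; simp
      · rw [Real.zero_rpow h7.ne', mul_zero]
    · rw [← Real.rpow_add h6, sub_add_cancel, Real.rpow_one]
  calc c ^ (1 - θ) * (T ^ (ν0 * (1 - θ)) * A ^ (1 - θ)) *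
        (c ^ θ * (T ^ (ν1 * θ) * (Real.exp (b * Om T) * A ^ θ)))
      = (c ^ (1 - θ) * c ^ θ) * (T ^ (ν0 * (1 - θ)) * T ^ (ν1 * θ)) *
        (Real.exp (b * Om T) * (A ^ (1 - θ) * A ^ θ)) := by ring
    _ = _ := by rw [e6, e7]

end Pool.Agent.H986R2.TR
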