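import Pool.Agent.H986R2.TR.Spec2
import Pool.Agent.H24R2.JP.Zeta
import Pool.Agent.H24R2.JP.B1

set_option autoImplicit false

namespace Pool.Agent.H986R2.TR

open Complex Filter Topology MeasureTheory Set
open Pool.Agent.H24R2.JP (XX HH Om)
open Pool.Agent.H986R2.K4 (ZB S_SAB S_HH S_PL S_VDC S_V0 S_A1 xi)

namespace TC2Aux

lemma zf_half (T : ℝ) : ZF (1 / 2) T := by
  intro s hs _
  exact riemannZeta_ne_zero_of_one_le_re (by linarith)

lemma zf_mono {y y' T T' : ℝ} (h : y ≤ y') (hT : T ≤ T') (hz : ZF y T) : ZF y' T' := by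
  intro s hs ht
  exact hz s (by linarith) (by linarith)

/-- reflection of the modulus -/
lemma refl (T x : ℝ) : ‖XX (I * T + (x : ℂ))‖ = ‖XX (I * T + ((|x| : ℝ) : ℂ))‖ := by
  rcases le_total 0 x with h | h
  · rw [abs_of_nonneg h]
  · rw [abs_of_nonpos h]
    have e1 : (I * T + ((-x : ℝ) : ℂ)) = -((starRingEnd ℂ) (I * T + (x : ℂ))) := by
      simp only [map_add, map_mul, conj_I, conj_ofReal]
      push_cast
      ring
    rw [e1, Pool.Agent.H24R2.JP.B1h.XX_neg, Pool.Agent.H24R2.JP.B1h.XX_conj, norm_conj]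

lemma expo (μ0 h y Y ε xp : ℝ) (hμ : 0 ≤ μ0) (hh : 0 < h) (hhy : h < y) (hμy : 2 * μ0 < y) (hY : y ≤ Y)
    (hε : 0 < ε) (hε1 : ε ≤ min h (y - h) * (1 - 2 * μ0 / y) / 16)
    (hx1 : Y - ε < xp) (hx2 : xp ≤ Y + ε) :
    0 ≤ |xp - 2 * h| ∧ |xp - 2 * h| ≤ Y + 2 * ε ∧
    min h (y - h) * (1 - 2 * μ0 / y) / 8 ≤
      (xp - |xp - 2 * h|) / 2 - (1 - |xp - 2 * h| / (Y + 2 * ε)) * μ0 - 2 * ε := by
  set δ := min h (y - h) with hδ
  have hδ0 : 0 < δ := lt_min hh (by linarith)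
  have hδ1 : δ ≤ h := min_le_left _ _
  have hδ2 : δ ≤ y - h := min_le_right _ _
  have hy0 : 0 < y := by linarith
  set κ := 1 - 2 * μ0 / y with hκ
  have hκ0 : 0 < κ := by
    rw [hκ, sub_pos, div_lt_one hy0]; exact hμy
  have hκ1 : κ ≤ 1 := by
    have : 0 ≤ 2 * μ0 / y := by positivity
    rw [hκ]; linarith
  have hεδ : ε ≤ δ / 16 := by
    refine le_trans hε1 ?_
    have : δ * κ ≤ δ * 1 := by gcongr
    linarith
  set b := |xp - 2 * h| with hb
  have hb0 : 0 ≤ b := abs_nonneg _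
  have hbx : b ≤ xp - δ := by
    rw [hb, abs_le]
    constructor <;> linarith
  refine ⟨hb0, by linarith, ?_⟩
  set x0 := Y + 2 * ε with hx0
  have hx00 : 0 < x0 := by linarith
  have hx0b : δ ≤ x0 - b := by linarith
  have h1 : (1 - b / x0) * μ0 = (x0 - b) * (μ0 / x0) := by field_simp
  have h2 : μ0 / x0 ≤ μ0 / y := by gcongr; linarith
  have h3 : κ / 2 = 1 / 2 - μ0 / y := by rw [hκ]; ring
  have h4 : κ / 2 ≤ 1 / 2 - μ0 / x0 := by rw [h3]; linarith
  have h5 : δ * (κ / 2) ≤ (x0 - b) * (1 / 2 - μ0 / x0) := by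
    apply mul_le_mul hx0b h4 (by positivity) (by linarith)
  rw [h1]
  have h6 : (xp - b) / 2 - (x0 - b) * (μ0 / x0) = (x0 - b) * (1 / 2 - μ0 / x0) - (x0 - xp) / 2 := by
    ring
  rw [h6]
  have h7 : x0 - xp ≤ 3 * ε := by rw [hx0]; linarith
  nlinarith

end TC2Aux

open TC2Aux in
theorem tc2 (h1 : S_A2L) (h2 : S_A1) (h3 : S_PL2) (h4 : S_TLOW2) (h5 : S_HH) : S_TC2 := by
  intro μ0 h y y1 T1 ω hμ0 hμ1 hOrd hh0 hh1 hy1 hω hOL hhy1 hμy
  have hhy : h < y := by linarith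
  by_contra hcon
  push Not at hcon
  have hy0 : 0 < y := by linarith
  set S : Set ℝ := {y' | 0 ≤ y' ∧ ∃ T : ℝ, ZF y' T} with hS
  have hSh : (1 / 2 : ℝ) ∈ S := ⟨by norm_num, 0, zf_half 0⟩
  have hSb : BddBelow S := ⟨0, fun x hx => hx.1⟩
  have hSy : ∀ y' ∈ S, y ≤ y' := by
    rintro y' ⟨-, T, hT⟩
    by_contra hc
    push Not at hc
    exact hcon T (zf_mono hc.le le_rfl hT)
  set Y : ℝ := sInf S with hY
  have hYy : y ≤ Y := le_csInf ⟨_, hSh⟩ hSy
  have hYh : Y ≤ 1 / 2 := csInf_le hSb hSh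
  set c : ℝ := min h (y - h) * (1 - 2 * μ0 / y) with hc
  have hκ0 : 0 < 1 - 2 * μ0 / y := by
    rw [sub_pos, div_lt_one hy0]; exact hμy
  have hc0 : 0 < c := mul_pos (lt_min hh0 (by linarith)) hκ0
  have hκ1 : 1 - 2 * μ0 / y ≤ 1 := by
    have : 0 ≤ 2 * μ0 / y := by positivity
    linarith
  have hch : c ≤ y - h := by
    have : min h (y - h) * (1 - 2 * μ0 / y) ≤ (y - h) * 1 := by
      apply mul_le_mul (min_le_right _ _) hκ1 hκ0.le (by linarith)
    linarith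
  -- choice of ε
  obtain ⟨ε, hε, hε1, hε3, hε2⟩ : ∃ ε : ℝ, 0 < ε ∧ ε ≤ c / 16 ∧ ε ≤ (y - h - y1) / 4 ∧
      (Y < 1 / 2 → Y + ε < 1 / 2) := by
    rcases lt_or_ge Y (1 / 2) with hlt | hge
    · refine ⟨min (min (c / 16) ((y - h - y1) / 4)) ((1 / 2 - Y) / 2),
        lt_min (lt_min (by positivity) (by linarith)) (by linarith),
        (min_le_left _ _).trans (min_le_left _ _), (min_le_left _ _).trans (min_le_right _ _), ?_⟩
      intro _
      have := min_le_right (min (c / 16) ((y - h - y1) / 4)) ((1 / 2 - Y) / 2)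
      linarith
    · exact ⟨min (c / 16) ((y - h - y1) / 4), lt_min (by positivity) (by linarith), min_le_left _ _,
        min_le_right _ _, fun h => absurd h (by linarith)⟩
  have hεs : ε ≤ 1 / 32 := by
    have : c ≤ 1 / 2 := by linarith
    linarith
  set x0 : ℝ := Y + 2 * ε with hx0
  -- zeta on the line x0
  have hz0 : ∃ t1 : ℝ, 2 ≤ t1 ∧ ∀ t : ℝ, t1 ≤ t → ‖riemannZeta (1 / 2 + x0 + t * I)‖ ≤ t ^ ε := by
    have hZ : ∃ Y1 : ℝ, Y1 ≤ Y + ε ∧ ZB Y1 := by
      rcases lt_or_ge Y (1 / 2) with hlt | hge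
      · obtain ⟨y', ⟨hy'0, T, hT⟩, hy'1⟩ := exists_lt_of_csInf_lt ⟨_, hSh⟩ (show sInf S < Y + ε by linarith)
        exact ⟨y', hy'1.le, h1 y' T hy'0 (by linarith [hε2 hlt]) hT⟩
      · exact ⟨1 / 2, by linarith, h2⟩
    obtain ⟨Y1, hY1, hZB⟩ := hZ
    obtain ⟨t1, ht1, hb⟩ := hZB ε hε
    refine ⟨t1, ht1, fun t ht => ?_⟩
    have e1 : ((1 / 2 : ℂ) + (x0 : ℂ) + t * I).re = 1 / 2 + x0 := by simp
    have e2 : ((1 / 2 : ℂ) + (x0 : ℂ) + t * I).im = t := by simp
    have := (hb (1 / 2 + x0 + t * I) (by rw [e1, hx0]; linarith) (by rw [e2]; exact ht)).2.2.2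
    rwa [e2] at this
  obtain ⟨t1, ht1, hz0⟩ := hz0
  obtain ⟨C, hC, hOrd⟩ := hOrd ε hε
  obtain ⟨C', T2, hC', hT2, hPL⟩ := h3 x0 (μ0 + ε) ε (max C 1) t1 (by linarith) (by linarith)
    (by linarith) (by linarith) hε.le (by linarith) (lt_of_lt_of_le hC (le_max_left _ _)) (by linarith)
    (fun t ht => le_trans (hOrd t (by linarith)) (by
      have : 0 ≤ t ^ (μ0 + ε) := Real.rpow_nonneg (by linarith) _
      gcongr
      exact le_max_left _ _))
    (fun t ht => le_trans (hz0 t ht) (by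
      have : 0 ≤ t ^ ε := Real.rpow_nonneg (by linarith) _
      have h1 : 1 ≤ max C 1 := le_max_right _ _
      nlinarith))
  set η0 : ℝ := min (1 / 4) ((y - h - y1) / 2) with hη0
  have hη00 : 0 < η0 := lt_min (by norm_num) (by linarith)
  obtain ⟨T3, hT3, hlow⟩ := h4 h y1 η0 ε hh0 hh1.le hy1 (by linarith) hη00 (min_le_left _ _) hε
  obtain ⟨K, hK, hHH⟩ := h5
  obtain ⟨T4, hT4, hHH⟩ := hHH 1 le_rfl
  -- large height
  set T5 : ℝ := Real.exp (16 * (Real.log C' + K + 1) / c) with hT5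
  -- a zero
  have hZ2 : ∃ T' : ℝ, ZF (Y + ε) T' := by
    obtain ⟨y', ⟨hy'0, T, hT⟩, hy'1⟩ := exists_lt_of_csInf_lt ⟨_, hSh⟩ (show sInf S < Y + ε by linarith)
    exact ⟨T, zf_mono hy'1.le le_rfl hT⟩
  obtain ⟨T', hT'⟩ := hZ2
  have hZ3 : ¬ ZF (Y - ε) (max (max T2 T3) (max (max T4 T5) (max T' (T1 + 20)))) := by
    intro hz
    have : Y - ε ∈ S := ⟨by linarith, _, hz⟩
    have := csInf_le hSb this
    linarith
  unfold ZF at hZ3
  push Not at hZ3
  obtain ⟨s, hs1, hs2, hs3⟩ := hZ3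
  set T : ℝ := s.im with hTdef
  have hTT2 : T2 ≤ T := le_trans (le_trans (le_max_left _ _) (le_max_left _ _)) hs2
  have hTT3 : T3 ≤ T := le_trans (le_trans (le_max_right _ _) (le_max_left _ _)) hs2
  have hTT4 : T4 ≤ T :=
    le_trans (le_trans (le_trans (le_max_left _ _) (le_max_left _ _)) (le_max_right _ _)) hs2
  have hTT5 : T5 ≤ T :=
    le_trans (le_trans (le_trans (le_max_right _ _) (le_max_left _ _)) (le_max_right _ _)) hs2
  have hTT' : T' ≤ T :=
    le_trans (le_trans (le_trans (le_max_left _ _) (le_max_right _ _)) (le_max_right _ _)) hs2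
  have hTT1 : T1 + 20 ≤ T :=
    le_trans (le_trans (le_trans (le_max_right _ _) (le_max_right _ _)) (le_max_right _ _)) hs2
  have hTp : 0 < T := by linarith
  set xp : ℝ := s.re - 1 / 2 with hxp
  have hxp1 : Y - ε < xp := by rw [hxp]; linarith
  have hxp2 : xp ≤ Y + ε := by
    by_contra hc'
    push Not at hc'
    exact hT' s (by rw [hxp] at hc'; linarith) hTT' hs3
  have hpXX : XX (I * T + (xp : ℂ)) = 0 := by
    rw [Pool.Agent.H24R2.JP.zetaS.1 _ (by simpa using hTp)]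
    have : (1 / 2 : ℂ) + (I * T + (xp : ℂ)) = s := by
      apply Complex.ext
      · simp [hxp]
      · simp [hTdef]
    rw [this, hs3, mul_zero]
  obtain ⟨hb0, hb1, hb2⟩ := expo μ0 h y Y ε xp hμ0 hh0 hhy hμy hYy hε (by rw [hc] at hε1; exact hε1)
    hxp1 hxp2
  rw [← hc, ← hx0] at hb2
  rw [← hx0] at hb1
  set b : ℝ := |xp - 2 * h| with hb
  -- lower bound
  have hl := hlow T ω hTT3 hω (by
    intro z hz hzT
    refine hOL z hz ?_
    have := abs_le.1 hzT
    rw [le_abs]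
    left
    linarith) ((xp - h : ℝ) : ℂ) (by
      rw [ofReal_re]
      have := min_le_right (1 / 4) ((y - h - y1) / 2)
      rw [← hη0] at this
      linarith) (by rw [ofReal_re]; linarith) (by simp)
  have e1 : I * (T : ℂ) + (((xp - h : ℝ) : ℂ) + (h : ℂ)) = I * T + (xp : ℂ) := by push_cast; ring
  have e2 : ‖TX h ω (I * T + ((xp - h : ℝ) : ℂ))‖ = ‖XX (I * T + (b : ℂ))‖ := by
    unfold TX
    have e3 : I * (T : ℂ) + ((xp - h : ℝ) : ℂ) + (h : ℂ) = I * T + (xp : ℂ) := by push_cast; ring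
    have e4 : I * (T : ℂ) + ((xp - h : ℝ) : ℂ) - (h : ℂ) = I * T + ((xp - 2 * h : ℝ) : ℂ) := by
      push_cast; ring
    rw [e3, e4, hpXX, zero_add, norm_mul, hω, one_mul, refl, ← hb]
  rw [e1, e2] at hl
  have hH1 := (hHH T (xp : ℂ) hTT4 (by
    rw [norm_real, Real.norm_eq_abs, abs_le]
    constructor <;> linarith)).2.2.2.1
  rw [ofReal_re, mul_one] at hH1
  have hHne : HH (I * T) ≠ 0 := by
    have := (hHH T 0 hTT4 (by simp)).2.1
    simpa using this
  have hHpos : 0 < ‖HH (I * T)‖ := norm_pos_iff.2 hHne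
  have hu := hPL T b hTT2 hb0 hb1
  set L : ℝ := Om T with hL
  have hLlog : Real.log T = 2 * L := by rw [hL]; unfold Om; ring
  have hTexp : T = Real.exp (2 * L) := by rw [← hLlog, Real.exp_log hTp]
  have hrp : ∀ a : ℝ, T ^ a = Real.exp (2 * L * a) := by
    intro a
    rw [Real.rpow_def_of_pos hTp, hLlog]
  have hcomb : Real.exp (2 * L * (-ε)) * (Real.exp (L * xp - K) * ‖HH (I * T)‖) ≤
      C' * Real.exp (2 * L * ((1 - b / x0) * (μ0 + ε) + b / x0 * ε)) *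
        (Real.exp (b * L) * ‖HH (I * T)‖) := by
    rw [← hrp, ← hrp]
    refine le_trans ?_ (le_trans hl hu)
    have : 0 ≤ T ^ (-ε) := Real.rpow_nonneg hTp.le _
    gcongr
  have hcomb2 : Real.exp (2 * L * (-ε)) * Real.exp (L * xp - K) ≤
      C' * Real.exp (2 * L * ((1 - b / x0) * (μ0 + ε) + b / x0 * ε)) * Real.exp (b * L) := by
    have h' : (Real.exp (2 * L * (-ε)) * Real.exp (L * xp - K)) * ‖HH (I * T)‖ ≤
      (C' * Real.exp (2 * L * ((1 - b / x0) * (μ0 + ε) + b / x0 * ε)) * Real.exp (b * L)) *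
        ‖HH (I * T)‖ := by
      calc _ = Real.exp (2 * L * (-ε)) * (Real.exp (L * xp - K) * ‖HH (I * T)‖) := by ring
        _ ≤ _ := hcomb
        _ = _ := by ring
    exact le_of_mul_le_mul_right h' hHpos
  have hlogs : 2 * L * (-ε) + (L * xp - K) ≤
      Real.log C' + 2 * L * ((1 - b / x0) * (μ0 + ε) + b / x0 * ε) + b * L := by
    have := Real.log_le_log (by positivity) hcomb2
    rw [Real.log_mul (by positivity) (by positivity), Real.log_exp, Real.log_exp,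
      Real.log_mul (by positivity) (by positivity), Real.log_mul (by positivity) (by positivity),
      Real.log_exp, Real.log_exp] at this
    exact this
  have hLbig : 8 * (Real.log C' + K + 1) / c ≤ L := by
    have h6 : Real.exp (16 * (Real.log C' + K + 1) / c) ≤ Real.exp (2 * L) := by
      rw [← hTexp]; exact hTT5
    have h7 := Real.exp_le_exp.1 h6
    have h8 : 16 * (Real.log C' + K + 1) / c = 2 * (8 * (Real.log C' + K + 1) / c) := by ring
    linarith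
  rw [div_le_iff₀ hc0] at hLbig
  have hLpos : 0 ≤ L := by
    rw [hL]; unfold Om
    have := Real.log_nonneg (show (1 : ℝ) ≤ T by linarith)
    positivity
  have h9 : c / 8 * (2 * L) ≤ ((xp - b) / 2 - (1 - b / x0) * μ0 - 2 * ε) * (2 * L) := by
    gcongr
  have h10 : (1 - b / x0) * (μ0 + ε) + b / x0 * ε = (1 - b / x0) * μ0 + ε := by ring
  rw [h10] at hlogs
  nlinarith

end Pool.Agent.H986R2.TR
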