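import Pool.Agent.H986R2.TR.Spec
import Pool.Agent.H24R2.JP.Zeros

set_option autoImplicit false

/-!
# TFin: assembly
-/

namespace Pool.Agent.H986R2.TR

open Complex Filter Topology MeasureTheory Set
open Pool.Agent.H24R2.JP (XX HH Om)
open Pool.Agent.H986R2.K4 (ZB S_SAB S_HH S_PL S_VDC S_V0 S_A1 S_XI xi)

namespace TFinAux

theorem xi_eq (s : ℂ) : xi s = (1 / 8) * XX (s - 1 / 2) := by
  unfold xi XX
  have h : (1 / 2 : ℂ) + (s - 1 / 2) = s := by ring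
  rw [h]
  ring

theorem TT_eq (h : ℝ) (ω s : ℂ) : TT h ω s = (1 / 8) * TX h ω (s - 1 / 2) := by
  unfold TT TX
  rw [xi_eq, xi_eq]
  have h1 : s + (h : ℂ) - 1 / 2 = s - 1 / 2 + h := by ring
  have h2 : s - (h : ℂ) - 1 / 2 = s - 1 / 2 - h := by ring
  rw [h1, h2]
  ring

theorem TT_zero (h : ℝ) (ω s : ℂ) : TT h ω s = 0 ↔ TX h ω (s - 1 / 2) = 0 := by
  rw [TT_eq]
  constructor
  · intro h1
    rcases mul_eq_zero.1 h1 with h2 | h2
    · norm_num at h2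
    · exact h2
  · intro h1
    rw [h1, mul_zero]

theorem half_im (s : ℂ) : (s - 1 / 2).im = s.im := by
  simp

theorem half_re (s : ℂ) : (s - 1 / 2).re = s.re - 1 / 2 := by
  simp

theorem OnL_of (h : ℝ) (ω : ℂ) (T1 : ℝ) (H : OL h ω T1) : OnL h ω := by
  refine ⟨T1, fun s hs hT => ?_⟩
  have h1 := H (s - 1 / 2) ((TT_zero h ω s).1 hs) (by rw [half_im]; exact hT)
  rw [half_re] at h1
  linarith

theorem OL_of (h : ℝ) (ω : ℂ) (H : OnL h ω) : ∃ T1 : ℝ, OL h ω T1 := by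
  obtain ⟨T1, H⟩ := H
  refine ⟨T1, fun z hz hT => ?_⟩
  have e : (z + 1 / 2) - 1 / 2 = z := by ring
  have h1 := H (z + 1 / 2) (by rw [TT_zero, e]; exact hz) (by
    have := half_im (z + 1 / 2)
    rw [e] at this
    rw [← this]; exact hT)
  have h2 := half_re (z + 1 / 2)
  rw [e] at h2
  rw [h2, h1, sub_self]

theorem zeta_zero (ρ : ℂ) (h : XX ρ = 0) : riemannZeta (1 / 2 + ρ) = 0 := by
  obtain ⟨h1, _, h3⟩ := Pool.Agent.H24R2.JP.Zer.completed_zero ρ h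
  rw [riemannZeta_def_of_ne_zero h1, h3, zero_div]

theorem re_le (h : ℝ) (hz : ∀ s : ℂ, 1 / 2 + h < s.re → riemannZeta s ≠ 0) (ρ : ℂ)
    (hρ : XX ρ = 0) : ρ.re ≤ h := by
  by_contra hc
  push Not at hc
  apply hz (1 / 2 + ρ) _ (zeta_zero ρ hρ)
  have : (1 / 2 + ρ : ℂ).re = 1 / 2 + ρ.re := by simp
  rw [this]
  linarith

theorem sq_le (h : ℝ) (hz : ∀ s : ℂ, 1 / 2 + h < s.re → riemannZeta s ≠ 0) (ρ : ℂ)
    (hρ : XX ρ = 0) : ρ.re ^ 2 ≤ 0 ^ 2 + h ^ 2 := by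
  have h1 := re_le h hz ρ hρ
  have h2 := re_le h hz (-ρ) (by rw [Pool.Agent.H24R2.JP.Zer.XX_even]; exact hρ)
  rw [Complex.neg_re] at h2
  nlinarith

theorem part1 (h1 : S_TP) (h : ℝ) (ω : ℂ) (hh : 0 < h) (hω : ‖ω‖ = 1)
    (hz : ∀ s : ℂ, 1 / 2 + h < s.re → riemannZeta s ≠ 0) (s : ℂ) (hs : TT h ω s = 0) :
    s.re = 1 / 2 := by
  have hP := h1 h 0 hh le_rfl (sq_le h hz)
  have hT := (TT_zero h ω s).1 hs
  obtain ⟨z, hzs⟩ : ∃ z : ℂ, z = s - 1 / 2 := ⟨_, rfl⟩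
  rw [← hzs] at hT
  have hzre : z.re = s.re - 1 / 2 := by rw [hzs, half_re]
  unfold TX at hT
  have hn : ‖XX (z + h)‖ = ‖XX (z - h)‖ := by
    have : XX (z + h) = -(ω * XX (z - h)) := by linear_combination hT
    rw [this, norm_neg, norm_mul, hω, one_mul]
  rcases lt_trichotomy z.re 0 with hlt | heq | hgt
  · exfalso
    have h2 := hP (-z) (by rw [Complex.neg_re]; linarith)
    have e1 : -z - (h : ℂ) = -(z + h) := by ring
    have e2 : -z + (h : ℂ) = -(z - h) := by ring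
    rw [e1, e2, Pool.Agent.H24R2.JP.Zer.XX_even, Pool.Agent.H24R2.JP.Zer.XX_even, hn] at h2
    exact lt_irrefl _ h2
  · linarith
  · exfalso
    have h2 := hP z hgt
    rw [hn] at h2
    exact lt_irrefl _ h2

theorem Ord_mono (a b : ℝ) (hab : a ≤ b) (H : Ord a) : Ord b := by
  intro ε hε
  obtain ⟨C, hC, h⟩ := H ε hε
  refine ⟨C, hC, fun t ht => (h t ht).trans ?_⟩
  apply mul_le_mul_of_nonneg_left _ hC.le
  exact Real.rpow_le_rpow_of_exponent_le (by linarith) (by linarith)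

theorem part3 (h4 : S_TC) (μ0 h y : ℝ) (ω : ℂ) (hO : Ord μ0) (hh : 0 < h) (hh2 : h < 1 / 2)
    (hω : ‖ω‖ = 1) (hL : OnL h ω) (hy : h < y) (hy2 : 2 * μ0 < y) : ∃ T2 : ℝ, ZF y T2 := by
  rcases le_or_gt (1 / 2) y with h5 | h5
  · refine ⟨0, fun s hs _ => riemannZeta_ne_zero_of_one_lt_re (by linarith)⟩
  · obtain ⟨T1, hT⟩ := OL_of h ω hL
    rcases le_or_gt 0 μ0 with h6 | h6
    · exact h4 μ0 h y T1 ω h6 (by linarith) hO hh hh2 hω hT hy hy2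
    · exact h4 0 h y T1 ω le_rfl (by norm_num) (Ord_mono _ _ h6.le hO) hh hh2 hω hT hy (by linarith)

end TFinAux

open TFinAux

theorem tfin (h1 : S_TP) (h2 : S_A2L) (h3 : S_TR2) (h4 : S_TC) (h5 : S_SUB) (h6 : S_V0)
    (_h7 : S_XI) : S_TFIN := by
  refine ⟨fun h ω hh hω hz s hs => part1 h1 h ω hh hω hz s hs, ?_,
    fun μ0 h y ω hO hh hh2 hω hL hy hy2 => part3 h4 μ0 h y ω hO hh hh2 hω hL hy hy2, ?_, ?_⟩
  · rintro y h ω hy0 hyh hh2 hω ⟨T1, hT⟩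
    have hZB := h2 y T1 hy0 (by linarith) hT
    obtain ⟨T2, hT2⟩ := h3 y h hy0 hyh hh2 hZB
    exact OnL_of h ω T2 (hT2 ω hω)
  · rintro ⟨h, ω, hh, hh2, hω, hL⟩
    obtain ⟨μ0, hμ0, hμ1, hO⟩ := h5
    obtain ⟨y, hy1, hy2, hy3⟩ : ∃ y : ℝ, h < y ∧ 2 * μ0 < y ∧ y < 1 / 2 := by
      have h7 : max h (2 * μ0) < 1 / 2 := max_lt hh2 (by linarith)
      obtain ⟨y, hya, hyb⟩ := exists_between h7
      exact ⟨y, (le_max_left _ _).trans_lt hya, (le_max_right _ _).trans_lt hya, hyb⟩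
    obtain ⟨T2, hT2⟩ := part3 h4 μ0 h y ω hO hh hh2 hω hL hy1 hy2
    by_contra hcon
    push Not at hcon
    obtain ⟨s, hs0, hs1, _, hs3⟩ := h6 (fun y' hy' => by
      obtain ⟨s, hs, hs'⟩ := hcon (1 / 2 + y') (by linarith)
      exact ⟨s, hs, hs'⟩) (1 / 2 - y) T2 (by linarith)
    exact hT2 s (by linarith) hs3 hs0
  · rintro ⟨θ, hθ, hz⟩
    obtain ⟨h, hha, hhb⟩ : ∃ h : ℝ, max (θ - 1 / 2) 0 < h ∧ h < 1 / 2 :=
      exists_between (max_lt (by linarith) (by norm_num))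
    have hh0 : 0 < h := (le_max_right _ _).trans_lt hha
    have hh1 : θ - 1 / 2 < h := (le_max_left _ _).trans_lt hha
    refine ⟨h, 1, hh0, hhb, norm_one, 0, fun s hs _ => ?_⟩
    exact part1 h1 h 1 hh0 norm_one (fun s hs => hz s (by linarith)) s hs

end Pool.Agent.H986R2.TR
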