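import Pool.Agent.H986R2.TR.Spec2
import Pool.Agent.H986R2.TR.TFin

set_option autoImplicit false

namespace Pool.Agent.H986R2.TR

open Complex Filter Topology MeasureTheory Set
open Pool.Agent.H24R2.JP (XX HH Om)
open Pool.Agent.H986R2.K4 (ZB S_SAB S_HH S_PL S_VDC S_V0 S_A1 S_XI xi)

namespace TFin2Aux

open TFinAux

theorem InS_of (h : ℝ) (ω : ℂ) (y1 T1 : ℝ) (H : OL2 h ω y1 T1) : InS h ω y1 := by
  refine ⟨T1, fun s hs hT => ?_⟩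
  have h1 := H (s - 1 / 2) ((TT_zero h ω s).1 hs) (by rw [half_im]; exact hT)
  rwa [half_re] at h1

theorem OL2_of (h : ℝ) (ω : ℂ) (y1 : ℝ) (H : InS h ω y1) : ∃ T1 : ℝ, OL2 h ω y1 T1 := by
  obtain ⟨T1, H⟩ := H
  refine ⟨T1, fun z hz hT => ?_⟩
  have e : (z + 1 / 2) - 1 / 2 = z := by ring
  have h1 := H (z + 1 / 2) (by rw [TT_zero, e]; exact hz) (by
    have := half_im (z + 1 / 2)
    rw [e] at this
    rw [← this]; exact hT)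
  have h2 := half_re (z + 1 / 2)
  rw [e] at h2
  rwa [h2]

theorem InS_mono {h : ℝ} {ω : ℂ} {y y' : ℝ} (hy : y ≤ y') (H : InS h ω y) : InS h ω y' := by
  obtain ⟨T1, H⟩ := H
  exact ⟨T1, fun s hs hT => (H s hs hT).trans hy⟩

theorem part2 (h4 : S_TC2) (μ0 h y y1 : ℝ) (ω : ℂ) (hO : Ord μ0) (hh : 0 < h) (hh2 : h < 1 / 2)
    (hy1 : 0 ≤ y1) (hω : ‖ω‖ = 1) (hL : InS h ω y1) (hy : h + y1 < y) (hy2 : 2 * μ0 < y) :
    ∃ T2 : ℝ, ZF y T2 := by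
  rcases le_or_gt (1 / 2) y with h5 | h5
  · refine ⟨0, fun s hs _ => riemannZeta_ne_zero_of_one_lt_re (by linarith)⟩
  · obtain ⟨T1, hT⟩ := OL2_of h ω y1 hL
    rcases le_or_gt 0 μ0 with h6 | h6
    · exact h4 μ0 h y y1 T1 ω h6 (by linarith) hO hh hh2 hy1 hω hT hy hy2
    · exact h4 0 h y y1 T1 ω le_rfl (by norm_num) (Ord_mono _ _ h6.le hO) hh hh2 hy1 hω hT hy
        (by linarith)

theorem part1' (h2 : S_A2L) (h3 : S_TR3) (y h y1 : ℝ) (ω : ℂ) (hy0 : 0 ≤ y) (hy : y < 1 / 2)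
    (hh : 0 < h) (hh2 : h ≤ 1 / 2) (hy1 : 0 < y1) (hyh : y - h < y1) (hω : ‖ω‖ = 1)
    (hT : ∃ T1 : ℝ, ZF y T1) : InS h ω y1 := by
  obtain ⟨T1, hT⟩ := hT
  have hZB := h2 y T1 hy0 hy hT
  obtain ⟨T2, hT2⟩ := h3 y h y1 hy0 hy hh hh2 hy1 hyh hZB
  exact InS_of h ω y1 T2 (hT2 ω hω)

end TFin2Aux

open TFin2Aux in
theorem tfin2 (h2 : S_A2L) (h3 : S_TR3) (h4 : S_TC2) (h5 : S_SUB) (h6 : S_V0) : S_TFIN2 := by
  refine ⟨fun y h y1 ω hy0 hy hh hh2 hy1 hyh hω hT =>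
      part1' h2 h3 y h y1 ω hy0 hy hh hh2 hy1 hyh hω hT,
    fun μ0 h y y1 ω hO hh hh2 hy1 hω hL hy hy2 => part2 h4 μ0 h y y1 ω hO hh hh2 hy1 hω hL hy hy2,
    fun h ω hh hh2 hω => ⟨?_, ?_⟩⟩
  · rintro ⟨y0, hy0, hL0⟩
    obtain ⟨y1, hy1, hL, hy1p⟩ : ∃ y1 : ℝ, y1 < 1 / 2 - h ∧ InS h ω y1 ∧ 0 ≤ y1 :=
      ⟨max y0 0, max_lt hy0 (by linarith), InS_mono (le_max_left _ _) hL0, le_max_right _ _⟩
    obtain ⟨μ0, hμ0, hμ1, hO⟩ := h5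
    obtain ⟨y, hy1', hy2, hy3⟩ : ∃ y : ℝ, h + y1 < y ∧ 2 * μ0 < y ∧ y < 1 / 2 := by
      have h7 : max (h + y1) (2 * μ0) < 1 / 2 := max_lt (by linarith) (by linarith)
      obtain ⟨y, hya, hyb⟩ := exists_between h7
      exact ⟨y, (le_max_left _ _).trans_lt hya, (le_max_right _ _).trans_lt hya, hyb⟩
    obtain ⟨T2, hT2⟩ := part2 h4 μ0 h y y1 ω hO hh hh2 hy1p hω hL hy1' hy2
    by_contra hcon
    push Not at hcon
    obtain ⟨s, hs0, hs1, _, hs3⟩ := h6 (fun y' hy' => by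
      obtain ⟨s, hs, hs'⟩ := hcon (1 / 2 + y') (by linarith)
      exact ⟨s, hs, hs'⟩) (1 / 2 - y) T2 (by linarith)
    exact hT2 s (by linarith) hs3 hs0
  · rintro ⟨θ, hθ, hz⟩
    have hy : max (θ - 1 / 2) 0 < 1 / 2 := max_lt (by linarith) (by norm_num)
    obtain ⟨y1, hya, hyb⟩ : ∃ y1 : ℝ, max (max (θ - 1 / 2) 0 - h) 0 < y1 ∧ y1 < 1 / 2 - h :=
      exists_between (max_lt (by linarith) (by linarith))
    refine ⟨y1, hyb, part1' h2 h3 (max (θ - 1 / 2) 0) h y1 ω (le_max_right _ _) hy hh hh2.le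
      ((le_max_right _ _).trans_lt hya) ((le_max_left _ _).trans_lt hya) hω ⟨0, ?_⟩⟩
    intro s hs _
    have := le_max_left (θ - 1 / 2) 0
    exact hz s (by linarith)

end Pool.Agent.H986R2.TR
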