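import Pool.Agent.H986R2.TR.Spec
import Pool.Agent.H24R2.JP.Zeta
import Pool.Agent.H24R2.JP.B1
import Pool.Agent.H24R2.JP.Zeros

set_option autoImplicit false

/-!
# Task 44 (by helper885): the forward direction
-/

namespace Pool.Agent.H986R2.TR

open Complex Filter Topology MeasureTheory Set
open Pool.Agent.H24R2.JP (XX HH Om)
open Pool.Agent.H986R2.K4 (ZB S_SAB S_HH S_PL S_VDC S_V0 S_A1 xi)

namespace TR2Aux

theorem refl (a t : ℝ) : ‖XX (I * t + (a : ℂ))‖ = ‖XX (I * t + ((|a| : ℝ) : ℂ))‖ := by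
  rcases le_total 0 a with h | h
  · rw [abs_of_nonneg h]
  · rw [abs_of_nonpos h]
    have e : (I * t + ((-a : ℝ) : ℂ)) = -((starRingEnd ℂ) (I * t + (a : ℂ))) := by
      apply Complex.ext
      · simp
      · simp
    rw [e, Pool.Agent.H24R2.JP.B1h.XX_neg, Pool.Agent.H24R2.JP.B1h.XX_conj, Complex.norm_conj]

theorem logDeriv_XX {p : ℂ} (hp : 0 < p.im) (h1 : DifferentiableAt ℂ HH p) (h2 : HH p ≠ 0)
    (h3 : riemannZeta (1 / 2 + p) ≠ 0) :
    logDeriv XX p = logDeriv HH p + logDeriv riemannZeta (1 / 2 + p) := by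
  have hs1 : (1 / 2 + p : ℂ) ≠ 1 := by
    intro h
    have := congrArg Complex.im h
    simp at this
    linarith
  have hz : DifferentiableAt ℂ riemannZeta (1 / 2 + p) := differentiableAt_riemannZeta hs1
  have hlin : HasDerivAt (fun z : ℂ => 1 / 2 + z) 1 p := (hasDerivAt_id p).const_add _
  have hz2 : HasDerivAt (fun z : ℂ => riemannZeta (1 / 2 + z)) (deriv riemannZeta (1 / 2 + p)) p := by
    have := HasDerivAt.comp p hz.hasDerivAt hlin
    rw [mul_one] at this
    exact this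
  have hev : XX =ᶠ[𝓝 p] fun z => HH z * riemannZeta (1 / 2 + z) := by
    have : {z : ℂ | 0 < z.im} ∈ 𝓝 p := (isOpen_lt continuous_const Complex.continuous_im).mem_nhds hp
    filter_upwards [this] with z hz
    exact Pool.Agent.H24R2.JP.ZetaTask.part1 z hz
  have e1 : logDeriv XX p = logDeriv (fun z => HH z * riemannZeta (1 / 2 + z)) p := by
    rw [logDeriv_apply, logDeriv_apply, hev.deriv_eq, hev.eq_of_nhds]
  rw [e1, logDeriv_mul p h2 h3 h1 hz2.differentiableAt]
  congr 1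
  rw [logDeriv_apply, logDeriv_apply, hz2.deriv]

theorem norm_lt {f : ℂ → ℂ} {p : ℂ} {a b : ℝ} (hab : a < b) (hf : Differentiable ℂ f)
    (hne : ∀ s ∈ Icc a b, f (p + (s : ℂ)) ≠ 0)
    (hre : ∀ s ∈ Icc a b, 0 < (logDeriv f (p + (s : ℂ))).re) :
    ‖f (p + (a : ℂ))‖ < ‖f (p + (b : ℂ))‖ := by
  have hd : ∀ s : ℝ, HasDerivAt (fun s : ℝ => f (p + (s : ℂ))) (deriv f (p + (s : ℂ))) s := by
    intro s
    have h1 : HasDerivAt (fun z : ℂ => p + z) 1 (s : ℂ) := (hasDerivAt_id (s : ℂ)).const_add _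
    have h2 : HasDerivAt (f ∘ fun z : ℂ => p + z) (deriv f (p + (s : ℂ)) * 1) (s : ℂ) :=
      HasDerivAt.comp (h₂ := f) (s : ℂ) (hf (p + (s : ℂ))).hasDerivAt h1
    rw [mul_one] at h2
    exact h2.comp_ofReal
  have hg : ∀ s : ℝ, HasDerivAt (fun s : ℝ => ‖f (p + (s : ℂ))‖ ^ 2)
      (2 * inner ℝ (f (p + (s : ℂ))) (deriv f (p + (s : ℂ)))) s := fun s => (hd s).norm_sq
  have hmono : StrictMonoOn (fun s : ℝ => ‖f (p + (s : ℂ))‖ ^ 2) (Icc a b) := by
    apply strictMonoOn_of_deriv_pos (convex_Icc a b)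
    · exact fun s _ => (hg s).continuousAt.continuousWithinAt
    · intro s hs
      rw [interior_Icc] at hs
      have hs' : s ∈ Icc a b := Ioo_subset_Icc_self hs
      rw [(hg s).deriv]
      have h3 := hre s hs'
      have h4 := hne s hs'
      rw [logDeriv_apply] at h3
      have h5 : inner ℝ (f (p + (s : ℂ))) (deriv f (p + (s : ℂ))) =
          ‖f (p + (s : ℂ))‖ ^ 2 * (deriv f (p + (s : ℂ)) / f (p + (s : ℂ))).re := by
        have h6 : deriv f (p + (s : ℂ)) =
            f (p + (s : ℂ)) * (deriv f (p + (s : ℂ)) / f (p + (s : ℂ))) := by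
          field_simp
        generalize deriv f (p + (s : ℂ)) / f (p + (s : ℂ)) = q at h6 ⊢
        rw [h6, Complex.inner, ← Complex.normSq_eq_norm_sq]
        rw [mul_right_comm, Complex.mul_conj, Complex.re_ofReal_mul]
      rw [h5]
      have h7 : 0 < ‖f (p + (s : ℂ))‖ ^ 2 := by
        have := norm_pos_iff.mpr h4
        positivity
      positivity
  have h8 := hmono (left_mem_Icc.mpr hab.le) (right_mem_Icc.mpr hab.le) hab
  exact lt_of_pow_lt_pow_left₀ 2 (norm_nonneg _) h8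

/-- zeros of `XX` are in the strip -/
theorem strip (ρ : ℂ) (h : XX ρ = 0) : |ρ.re| ≤ 1 / 2 := by
  have key : ∀ z : ℂ, XX z = 0 → z.re ≤ 1 / 2 := by
    intro z hz
    by_contra hc
    push Not at hc
    refine Pool.Agent.H24R2.JP.Zer.completed_ne_zero (1 / 2 + z) ?_
      (Pool.Agent.H24R2.JP.Zer.completed_zero z hz).2.2
    have e : (1 / 2 + z : ℂ).re = 1 / 2 + z.re := by simp
    rw [e]
    linarith
  rw [abs_le]
  refine ⟨?_, key ρ h⟩
  have h1 := key (-ρ) (by rw [Pool.Agent.H24R2.JP.B1h.XX_neg]; exact h)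
  rw [Complex.neg_re] at h1
  linarith

/-- the main comparison -/
theorem main (h1 : S_HH) (h2 : S_PL) (h3 : S_TP) (y h : ℝ) (hy : 0 ≤ y) (hyh : y < h)
    (hh : h ≤ 1 / 2) (hZ : ZB y) :
    ∃ T1 : ℝ, 2 ≤ T1 ∧ ∀ t x : ℝ, T1 ≤ t → 0 < x →
      ‖XX (I * t + ((x - h : ℝ) : ℂ))‖ < ‖XX (I * t + ((x + h : ℝ) : ℂ))‖ := by
  obtain ⟨K, hK1, hK⟩ := h1
  obtain ⟨T0, hT0, hH⟩ := hK 2 (by norm_num)
  obtain ⟨e, he⟩ : ∃ e : ℝ, e = (h - y) / 4 := ⟨_, rfl⟩
  have he0 : 0 < e := by rw [he]; linarith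
  obtain ⟨η, hη⟩ : ∃ η : ℝ, η = min e (h / 4) := ⟨_, rfl⟩
  have hη0 : 0 < η := by rw [hη]; exact lt_min he0 (by linarith)
  have hηe : η ≤ e := by rw [hη]; exact min_le_left _ _
  have hηh : η ≤ h / 4 := by rw [hη]; exact min_le_right _ _
  have hhy : h = y + 4 * e := by rw [he]; ring
  obtain ⟨t1, ht1, hz⟩ := hZ (η / 8) (by linarith)
  obtain ⟨x0, hx0⟩ : ∃ x0 : ℝ, x0 = y + e := ⟨_, rfl⟩
  have hzt : ∀ t a : ℝ, t1 ≤ t → y + η / 8 ≤ a →
      riemannZeta (1 / 2 + (I * t + (a : ℂ))) ≠ 0 ∧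
      ‖logDeriv riemannZeta (1 / 2 + (I * t + (a : ℂ)))‖ ≤ η / 8 * Real.log t ∧
      t ^ (-(η / 8)) ≤ ‖riemannZeta (1 / 2 + (I * t + (a : ℂ)))‖ ∧
      ‖riemannZeta (1 / 2 + (I * t + (a : ℂ)))‖ ≤ t ^ (η / 8) := by
    intro t a ht ha
    have e1 : (1 / 2 + (I * t + (a : ℂ)) : ℂ).re = 1 / 2 + a := by simp
    have e2 : (1 / 2 + (I * t + (a : ℂ)) : ℂ).im = t := by simp
    have := hz (1 / 2 + (I * t + (a : ℂ))) (by rw [e1]; linarith) (by rw [e2]; exact ht)
    rw [e2] at this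
    exact this
  obtain ⟨C', T0', hC', hT0', hPL⟩ := h2 x0 (η / 8) 1 t1 1 (by rw [hx0]; linarith)
    (by rw [hx0]; linarith) (by linarith) (by linarith) one_pos (by linarith) le_rfl (by
      intro t ht
      rw [one_mul]
      have := (hzt t x0 ht (by rw [hx0]; linarith)).2.2.2
      have e3 : (1 / 2 + (x0 : ℂ) + (t : ℂ) * I) = 1 / 2 + (I * t + (x0 : ℂ)) := by ring
      rw [e3]
      exact this)
  obtain ⟨c, hc⟩ : ∃ c : ℝ, c = max (Real.log C') (2 * K) := ⟨_, rfl⟩
  have hc1 : C' ≤ Real.exp c := by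
    rw [← Real.exp_log hC']
    exact Real.exp_le_exp.mpr (by rw [hc]; exact le_max_left _ _)
  have hc2 : Real.exp (2 * K) ≤ Real.exp c :=
    Real.exp_le_exp.mpr (by rw [hc]; exact le_max_right _ _)
  obtain ⟨L0, hL0⟩ : ∃ L0 : ℝ, L0 = max (2 * (c + 2 * K) / η + 1) (4 * K + 1) := ⟨_, rfl⟩
  refine ⟨max (max T0 t1) (max T0' (Real.exp L0)), ?_, ?_⟩
  · exact le_trans hT0 ((le_max_left _ _).trans (le_max_left _ _))
  intro t x ht hx
  have htT0 : T0 ≤ t := le_trans ((le_max_left _ _).trans (le_max_left _ _)) ht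
  have htt1 : t1 ≤ t := le_trans ((le_max_right _ _).trans (le_max_left _ _)) ht
  have htT0' : T0' ≤ t := le_trans ((le_max_left _ _).trans (le_max_right _ _)) ht
  have htL : Real.exp L0 ≤ t := le_trans ((le_max_right _ _).trans (le_max_right _ _)) ht
  have ht0 : 0 < t := lt_of_lt_of_le (by norm_num) (le_trans hT0 htT0)
  obtain ⟨L, hL⟩ : ∃ L : ℝ, L = Real.log t := ⟨_, rfl⟩
  have hLL : L0 ≤ L := by
    rw [hL, Real.le_log_iff_exp_le ht0]
    exact htL
  have hL1 : 2 * (c + 2 * K) / η + 1 ≤ L := le_trans (by rw [hL0]; exact le_max_left _ _) hLL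
  have hL2 : 4 * K + 1 ≤ L := le_trans (by rw [hL0]; exact le_max_right _ _) hLL
  have hL3 : 2 * (c + 2 * K) < η * L := by
    have h5 : 2 * (c + 2 * K) / η < L := by linarith
    rw [div_lt_iff₀ hη0] at h5
    linarith
  have hLpos : 0 < L := by linarith
  have hOm : Om t = L / 2 := by rw [hL]; rfl
  have hpow : ∀ s : ℝ, t ^ s = Real.exp (s * L) := by
    intro s
    rw [Real.rpow_def_of_pos ht0, hL, mul_comm]
  have hHb : ∀ a : ℝ, |a| ≤ 2 → DifferentiableAt ℂ HH (I * t + (a : ℂ)) ∧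
      HH (I * t + (a : ℂ)) ≠ 0 ∧ ‖logDeriv HH (I * t + (a : ℂ)) - (Om t : ℂ)‖ ≤ K ∧
      Real.exp (L / 2 * a - K * 2) * ‖HH (I * t)‖ ≤ ‖HH (I * t + (a : ℂ))‖ ∧
      ‖HH (I * t + (a : ℂ))‖ ≤ Real.exp (L / 2 * a + K * 2) * ‖HH (I * t)‖ := by
    intro a ha
    have h5 := hH t (a : ℂ) htT0 (by rw [Complex.norm_real]; exact ha)
    rw [Complex.ofReal_re, hOm] at h5
    rw [hOm]
    exact h5
  have hHpos : 0 < ‖HH (I * t)‖ := by
    have h5 := (hHb 0 (by norm_num)).2.1
    rw [Complex.ofReal_zero, add_zero] at h5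
    exact norm_pos_iff.mpr h5
  have him : ∀ a : ℝ, 0 < (I * t + (a : ℂ)).im := by
    intro a
    simp
    exact ht0
  -- upper bound
  have hUB : ∀ a : ℝ, 0 ≤ a → a ≤ 1 / 2 → ‖XX (I * t + (a : ℂ))‖ ≤
      Real.exp (c + η / 8 * L + max a x0 * (L / 2)) * ‖HH (I * t)‖ := by
    intro a ha0 ha1
    rcases le_or_gt x0 a with hax | hax
    · rw [max_eq_left hax, Pool.Agent.H24R2.JP.ZetaTask.part1 _ (him a), norm_mul]
      have h5 := (hHb a (by rw [abs_of_nonneg ha0]; linarith)).2.2.2.2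
      have h6 := (hzt t a htt1 (by rw [hx0] at hax; linarith)).2.2.2
      rw [hpow] at h6
      calc ‖HH (I * t + (a : ℂ))‖ * ‖riemannZeta (1 / 2 + (I * t + (a : ℂ)))‖
          ≤ (Real.exp (L / 2 * a + K * 2) * ‖HH (I * t)‖) * Real.exp (η / 8 * L) := by gcongr
        _ = Real.exp (2 * K) * Real.exp (η / 8 * L + a * (L / 2)) * ‖HH (I * t)‖ := by
            rw [← Real.exp_add]
            rw [mul_right_comm, ← Real.exp_add]
            congr 2
            ring
        _ ≤ Real.exp c * Real.exp (η / 8 * L + a * (L / 2)) * ‖HH (I * t)‖ := by gcongr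
        _ = _ := by rw [← Real.exp_add]; congr 2; ring
    · rw [max_eq_right hax.le]
      have h5 := hPL t (a : ℂ) htT0' (by rw [Complex.ofReal_re, abs_of_nonneg ha0]; exact hax.le)
        (by rw [Complex.ofReal_im, abs_zero]; norm_num)
      rw [hpow, hOm] at h5
      calc ‖XX (I * t + (a : ℂ))‖ ≤
            C' * Real.exp (η / 8 * L) * (Real.exp (x0 * (L / 2)) * ‖HH (I * t)‖) := h5
        _ ≤ Real.exp c * Real.exp (η / 8 * L) * (Real.exp (x0 * (L / 2)) * ‖HH (I * t)‖) := by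
            gcongr
        _ = _ := by
            rw [← mul_assoc, ← Real.exp_add, ← Real.exp_add]
  -- lower bound
  have hLB : ∀ b : ℝ, y + η / 8 ≤ b → b ≤ 2 →
      Real.exp (-(η / 8) * L + b * (L / 2) - 2 * K) * ‖HH (I * t)‖ ≤ ‖XX (I * t + (b : ℂ))‖ := by
    intro b hb hb2
    have hb0 : 0 ≤ b := by linarith
    rw [Pool.Agent.H24R2.JP.ZetaTask.part1 _ (him b), norm_mul]
    have h5 := (hHb b (by rw [abs_of_nonneg hb0]; exact hb2)).2.2.2.1
    have h6 := (hzt t b htt1 hb).2.2.1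
    rw [hpow] at h6
    calc Real.exp (-(η / 8) * L + b * (L / 2) - 2 * K) * ‖HH (I * t)‖
        = (Real.exp (L / 2 * b - K * 2) * ‖HH (I * t)‖) * Real.exp (-(η / 8) * L) := by
          rw [mul_right_comm, ← Real.exp_add]
          congr 2
          ring
      _ ≤ _ := by gcongr
  rcases lt_or_ge (1 / 2) x with hx1 | hx1
  · -- far
    have h5 := h3 h (1 / 2) (by linarith) (by norm_num) (by
      intro ρ hρ
      have h6 := strip ρ hρ
      have h7 : ρ.re ^ 2 ≤ (1 / 2) ^ 2 := by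
        rw [← sq_abs ρ.re]
        exact pow_le_pow_left₀ (abs_nonneg _) h6 2
      nlinarith [sq_nonneg h]) (I * t + (x : ℂ)) (by simp; linarith)
    have e1 : (I * t + (x : ℂ) - (h : ℂ)) = I * t + ((x - h : ℝ) : ℂ) := by push_cast; ring
    have e2 : (I * t + (x : ℂ) + (h : ℂ)) = I * t + ((x + h : ℝ) : ℂ) := by push_cast; ring
    rw [e1, e2] at h5
    exact h5
  · rcases le_or_gt η x with hx2 | hx2
    · -- middle
      rw [refl (x - h) t]
      have ha0 : 0 ≤ |x - h| := abs_nonneg _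
      have ha1 : |x - h| ≤ 1 / 2 := by
        rw [abs_le]
        constructor <;> linarith
      refine lt_of_le_of_lt (hUB |x - h| ha0 ha1) (lt_of_lt_of_le ?_ (hLB (x + h) (by linarith)
        (by linarith)))
      apply mul_lt_mul_of_pos_right _ hHpos
      apply Real.exp_lt_exp.mpr
      have hm : max |x - h| x0 ≤ x + h - 2 * η := by
        apply max_le
        · rw [abs_le]
          constructor <;> linarith
        · rw [hx0]
          linarith
      have hm2 : max |x - h| x0 * (L / 2) ≤ (x + h - 2 * η) * (L / 2) :=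
        mul_le_mul_of_nonneg_right hm (by linarith)
      nlinarith
    · -- near
      rw [refl (x - h) t]
      have e1 : |x - h| = h - x := by
        rw [abs_sub_comm, abs_of_nonneg (by linarith)]
      rw [e1]
      have e2 : x + h = h + x := by ring
      rw [e2]
      apply norm_lt (by linarith) Pool.Agent.H24R2.JP.B1h.XX_diff
      · intro s hs
        have hs1 : y + η / 8 ≤ s := by linarith [hs.1]
        have hs0 : |s| ≤ 2 := by
          rw [abs_of_nonneg (by linarith)]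
          linarith [hs.2]
        rw [Pool.Agent.H24R2.JP.ZetaTask.part1 _ (him s)]
        exact mul_ne_zero (hHb s hs0).2.1 (hzt t s htt1 hs1).1
      · intro s hs
        have hs1 : y + η / 8 ≤ s := by linarith [hs.1]
        have hs0 : |s| ≤ 2 := by
          rw [abs_of_nonneg (by linarith)]
          linarith [hs.2]
        obtain ⟨q1, q2, q3, -, -⟩ := hHb s hs0
        obtain ⟨r1, r2, -, -⟩ := hzt t s htt1 hs1
        rw [logDeriv_XX (him s) q1 q2 r1, Complex.add_re]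
        have h5 := (Complex.abs_re_le_norm _).trans q3
        have h6 := (Complex.abs_re_le_norm _).trans r2
        rw [Complex.sub_re, Complex.ofReal_re, abs_le] at h5
        rw [abs_le] at h6
        rw [← hL] at h6
        rw [hOm] at h5
        have h7 : η / 8 * L ≤ 1 / 8 * L := mul_le_mul_of_nonneg_right (by linarith) hLpos.le
        linarith [h5.1, h6.1]

end TR2Aux

open TR2Aux in
theorem tr2 (h1 : S_HH) (h2 : S_PL) (h3 : S_TP) : S_TR2 := by
  intro y h hy hyh hh hZ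
  obtain ⟨T1, hT1, hm⟩ := TR2Aux.main h1 h2 h3 y h hy hyh hh hZ
  refine ⟨T1, fun ω hω z hz hzT => ?_⟩
  -- norm equality
  have hn : ‖XX (z + h)‖ = ‖XX (z - h)‖ := by
    unfold TX at hz
    have h4 : XX (z + h) = -(ω * XX (z - h)) := eq_neg_of_add_eq_zero_left hz
    rw [h4, norm_neg, norm_mul, hω, one_mul]
  -- positive real part, positive imaginary part
  have key : ∀ w : ℂ, 0 < w.re → T1 ≤ w.im → ‖XX (w - h)‖ < ‖XX (w + h)‖ := by
    intro w hw hwT
    have h5 := hm w.im w.re hwT hw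
    have e0 : w = I * (w.im : ℂ) + (w.re : ℂ) := by
      apply Complex.ext
      · simp
      · simp
    have e1 : I * (w.im : ℂ) + ((w.re - h : ℝ) : ℂ) = w - h := by
      conv_rhs => rw [e0]
      push_cast
      ring
    have e2 : I * (w.im : ℂ) + ((w.re + h : ℝ) : ℂ) = w + h := by
      conv_rhs => rw [e0]
      push_cast
      ring
    rw [e1, e2] at h5
    exact h5
  have key2 : ∀ w : ℂ, 0 < w.re → T1 ≤ |w.im| → ‖XX (w - h)‖ < ‖XX (w + h)‖ := by
    intro w hw hwT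
    rcases le_total 0 w.im with h6 | h6
    · rw [abs_of_nonneg h6] at hwT
      exact key w hw hwT
    · rw [abs_of_nonpos h6] at hwT
      have h7 := key ((starRingEnd ℂ) w) (by rw [Complex.conj_re]; exact hw)
        (by rw [Complex.conj_im]; exact hwT)
      have e1 : (starRingEnd ℂ) w - (h : ℂ) = (starRingEnd ℂ) (w - h) := by
        rw [map_sub, Complex.conj_ofReal]
      have e2 : (starRingEnd ℂ) w + (h : ℂ) = (starRingEnd ℂ) (w + h) := by
        rw [map_add, Complex.conj_ofReal]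
      rw [e1, e2, Pool.Agent.H24R2.JP.B1h.XX_conj, Pool.Agent.H24R2.JP.B1h.XX_conj,
        Complex.norm_conj, Complex.norm_conj] at h7
      exact h7
  rcases lt_trichotomy z.re 0 with hr | hr | hr
  · have h8 := key2 (-z) (by rw [Complex.neg_re]; linarith) (by rw [Complex.neg_im, abs_neg]; exact hzT)
    have e1 : -z - (h : ℂ) = -(z + h) := by ring
    have e2 : -z + (h : ℂ) = -(z - h) := by ring
    rw [e1, e2, Pool.Agent.H24R2.JP.B1h.XX_neg, Pool.Agent.H24R2.JP.B1h.XX_neg] at h8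
    rw [hn] at h8
    exact absurd h8 (lt_irrefl _)
  · exact hr
  · have h8 := key2 z hr hzT
    rw [hn] at h8
    exact absurd h8 (lt_irrefl _)

end Pool.Agent.H986R2.TR
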