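import Pool.Agent.H986R2.TR.Spec2
import Pool.Agent.H986R2.TR.TR2

set_option autoImplicit false

/-!
# The forward direction, strips (adapted from helper885's TR2)
-/

namespace Pool.Agent.H986R2.TR

open Complex Filter Topology MeasureTheory Set
open Pool.Agent.H24R2.JP (XX HH Om)
open Pool.Agent.H986R2.K4 (ZB S_SAB S_HH S_PL S_VDC S_V0 S_A1 xi)

namespace TR3Aux

open TR2Aux

/-- the main comparison -/
theorem main (h1 : S_HH) (h2 : S_PL) (h3 : S_TP) (y h y1 : ℝ) (hy : 0 ≤ y) (hy2 : y < 1 / 2)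
    (hh0 : 0 < h) (hh : h ≤ 1 / 2) (hy1 : 0 < y1) (hyh : y - h < y1) (hy1' : y1 ≤ 1 / 2) (hZ : ZB y) :
    ∃ T1 : ℝ, 2 ≤ T1 ∧ ∀ t x : ℝ, T1 ≤ t → y1 < x →
      ‖XX (I * t + ((x - h : ℝ) : ℂ))‖ < ‖XX (I * t + ((x + h : ℝ) : ℂ))‖ := by
  obtain ⟨K, hK1, hK⟩ := h1
  obtain ⟨T0, hT0, hH⟩ := hK 2 (by norm_num)
  obtain ⟨e, he⟩ : ∃ e : ℝ, e = (y1 + h - y) / 4 := ⟨_, rfl⟩
  have he0 : 0 < e := by rw [he]; linarith
  obtain ⟨η, hη⟩ : ∃ η : ℝ, η = min e (min (h / 4) (y1 / 4)) := ⟨_, rfl⟩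
  have hη0 : 0 < η := by rw [hη]; exact lt_min he0 (lt_min (by linarith) (by linarith))
  have hηe : η ≤ e := by rw [hη]; exact min_le_left _ _
  have hηh : η ≤ h / 4 := by rw [hη]; exact (min_le_right _ _).trans (min_le_left _ _)
  have hηy : η ≤ y1 / 4 := by rw [hη]; exact (min_le_right _ _).trans (min_le_right _ _)
  have hhy : y1 + h = y + 4 * e := by rw [he]; ring
  obtain ⟨t1, ht1, hz⟩ := hZ (η / 8) (by linarith)
  obtain ⟨x0, hx0⟩ : ∃ x0 : ℝ, x0 = y + e := ⟨_, rfl⟩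
  have hzt : ∀ t a : ℝ, t1 ≤ t → y + η / 8 ≤ a →
      riemannZeta (1 / 2 + (I * t + (a : ℂ))) ≠ 0 ∧
      ‖logDeriv riemannZeta (1 / 2 + (I * t + (a : ℂ)))‖ ≤ η / 8 * Real.log t ∧
      t ^ (-(η / 8)) ≤ ‖riemannZeta (1 / 2 + (I * t + (a : ℂ)))‖ ∧
      ‖riemannZeta (1 / 2 + (I * t + (a : ℂ)))‖ ≤ t ^ (η / 8) := by
    intro t a ht ha
    have e1 : (1 / 2 + (I * t + (a : ℂ)) : ℂ).re = 1 / 2 + a := by simp
    have e2 : (1 / 2 + (I * t + (a : ℂ)) : ℂ).im = t := by simp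
    have := hz (1 / 2 + (I * t + (a : ℂ))) (by rw [e1]; linarith) (by rw [e2]; exact ht)
    rw [e2] at this
    exact this
  obtain ⟨C', T0', hC', hT0', hPL⟩ := h2 x0 (η / 8) 1 t1 1 (by rw [hx0]; linarith)
    (by rw [hx0]; linarith) (by linarith) (by linarith) one_pos (by linarith) le_rfl (by
      intro t ht
      rw [one_mul]
      have := (hzt t x0 ht (by rw [hx0]; linarith)).2.2.2
      have e3 : (1 / 2 + (x0 : ℂ) + (t : ℂ) * I) = 1 / 2 + (I * t + (x0 : ℂ)) := by ring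
      rw [e3]
      exact this)
  obtain ⟨c, hc⟩ : ∃ c : ℝ, c = max (Real.log C') (2 * K) := ⟨_, rfl⟩
  have hc1 : C' ≤ Real.exp c := by
    rw [← Real.exp_log hC']
    exact Real.exp_le_exp.mpr (by rw [hc]; exact le_max_left _ _)
  have hc2 : Real.exp (2 * K) ≤ Real.exp c :=
    Real.exp_le_exp.mpr (by rw [hc]; exact le_max_right _ _)
  obtain ⟨L0, hL0⟩ : ∃ L0 : ℝ, L0 = max (2 * (c + 2 * K) / η + 1) (4 * K + 1) := ⟨_, rfl⟩
  refine ⟨max (max T0 t1) (max T0' (Real.exp L0)), ?_, ?_⟩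
  · exact le_trans hT0 ((le_max_left _ _).trans (le_max_left _ _))
  intro t x ht hx
  have htT0 : T0 ≤ t := le_trans ((le_max_left _ _).trans (le_max_left _ _)) ht
  have htt1 : t1 ≤ t := le_trans ((le_max_right _ _).trans (le_max_left _ _)) ht
  have htT0' : T0' ≤ t := le_trans ((le_max_left _ _).trans (le_max_right _ _)) ht
  have htL : Real.exp L0 ≤ t := le_trans ((le_max_right _ _).trans (le_max_right _ _)) ht
  have ht0 : 0 < t := lt_of_lt_of_le (by norm_num) (le_trans hT0 htT0)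
  obtain ⟨L, hL⟩ : ∃ L : ℝ, L = Real.log t := ⟨_, rfl⟩
  have hLL : L0 ≤ L := by
    rw [hL, Real.le_log_iff_exp_le ht0]
    exact htL
  have hL1 : 2 * (c + 2 * K) / η + 1 ≤ L := le_trans (by rw [hL0]; exact le_max_left _ _) hLL
  have hL2 : 4 * K + 1 ≤ L := le_trans (by rw [hL0]; exact le_max_right _ _) hLL
  have hL3 : 2 * (c + 2 * K) < η * L := by
    have h5 : 2 * (c + 2 * K) / η < L := by linarith
    rw [div_lt_iff₀ hη0] at h5
    linarith
  have hLpos : 0 < L := by linarith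
  have hOm : Om t = L / 2 := by rw [hL]; rfl
  have hpow : ∀ s : ℝ, t ^ s = Real.exp (s * L) := by
    intro s
    rw [Real.rpow_def_of_pos ht0, hL, mul_comm]
  have hHb : ∀ a : ℝ, |a| ≤ 2 → DifferentiableAt ℂ HH (I * t + (a : ℂ)) ∧
      HH (I * t + (a : ℂ)) ≠ 0 ∧ ‖logDeriv HH (I * t + (a : ℂ)) - (Om t : ℂ)‖ ≤ K ∧
      Real.exp (L / 2 * a - K * 2) * ‖HH (I * t)‖ ≤ ‖HH (I * t + (a : ℂ))‖ ∧
      ‖HH (I * t + (a : ℂ))‖ ≤ Real.exp (L / 2 * a + K * 2) * ‖HH (I * t)‖ := by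
    intro a ha
    have h5 := hH t (a : ℂ) htT0 (by rw [Complex.norm_real]; exact ha)
    rw [Complex.ofReal_re, hOm] at h5
    rw [hOm]
    exact h5
  have hHpos : 0 < ‖HH (I * t)‖ := by
    have h5 := (hHb 0 (by norm_num)).2.1
    rw [Complex.ofReal_zero, add_zero] at h5
    exact norm_pos_iff.mpr h5
  have him : ∀ a : ℝ, 0 < (I * t + (a : ℂ)).im := by
    intro a
    simp
    exact ht0
  -- upper bound
  have hUB : ∀ a : ℝ, 0 ≤ a → a ≤ 1 / 2 → ‖XX (I * t + (a : ℂ))‖ ≤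
      Real.exp (c + η / 8 * L + max a x0 * (L / 2)) * ‖HH (I * t)‖ := by
    intro a ha0 ha1
    rcases le_or_gt x0 a with hax | hax
    · rw [max_eq_left hax, Pool.Agent.H24R2.JP.ZetaTask.part1 _ (him a), norm_mul]
      have h5 := (hHb a (by rw [abs_of_nonneg ha0]; linarith)).2.2.2.2
      have h6 := (hzt t a htt1 (by rw [hx0] at hax; linarith)).2.2.2
      rw [hpow] at h6
      calc ‖HH (I * t + (a : ℂ))‖ * ‖riemannZeta (1 / 2 + (I * t + (a : ℂ)))‖
          ≤ (Real.exp (L / 2 * a + K * 2) * ‖HH (I * t)‖) * Real.exp (η / 8 * L) := by gcongr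
        _ = Real.exp (2 * K) * Real.exp (η / 8 * L + a * (L / 2)) * ‖HH (I * t)‖ := by
            rw [← Real.exp_add]
            rw [mul_right_comm, ← Real.exp_add]
            congr 2
            ring
        _ ≤ Real.exp c * Real.exp (η / 8 * L + a * (L / 2)) * ‖HH (I * t)‖ := by gcongr
        _ = _ := by rw [← Real.exp_add]; congr 2; ring
    · rw [max_eq_right hax.le]
      have h5 := hPL t (a : ℂ) htT0' (by rw [Complex.ofReal_re, abs_of_nonneg ha0]; exact hax.le)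
        (by rw [Complex.ofReal_im, abs_zero]; norm_num)
      rw [hpow, hOm] at h5
      calc ‖XX (I * t + (a : ℂ))‖ ≤
            C' * Real.exp (η / 8 * L) * (Real.exp (x0 * (L / 2)) * ‖HH (I * t)‖) := h5
        _ ≤ Real.exp c * Real.exp (η / 8 * L) * (Real.exp (x0 * (L / 2)) * ‖HH (I * t)‖) := by
            gcongr
        _ = _ := by
            rw [← mul_assoc, ← Real.exp_add, ← Real.exp_add]
  -- lower bound
  have hLB : ∀ b : ℝ, y + η / 8 ≤ b → b ≤ 2 →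
      Real.exp (-(η / 8) * L + b * (L / 2) - 2 * K) * ‖HH (I * t)‖ ≤ ‖XX (I * t + (b : ℂ))‖ := by
    intro b hb hb2
    have hb0 : 0 ≤ b := by linarith
    rw [Pool.Agent.H24R2.JP.ZetaTask.part1 _ (him b), norm_mul]
    have h5 := (hHb b (by rw [abs_of_nonneg hb0]; exact hb2)).2.2.2.1
    have h6 := (hzt t b htt1 hb).2.2.1
    rw [hpow] at h6
    calc Real.exp (-(η / 8) * L + b * (L / 2) - 2 * K) * ‖HH (I * t)‖
        = (Real.exp (L / 2 * b - K * 2) * ‖HH (I * t)‖) * Real.exp (-(η / 8) * L) := by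
          rw [mul_right_comm, ← Real.exp_add]
          congr 2
          ring
      _ ≤ _ := by gcongr
  have hx0' : 0 < x := by linarith
  rcases lt_or_ge (1 / 2) x with hx1 | hx1
  · -- far
    have h5 := h3 h (1 / 2) (by linarith) (by norm_num) (by
      intro ρ hρ
      have h6 := strip ρ hρ
      have h7 : ρ.re ^ 2 ≤ (1 / 2) ^ 2 := by
        rw [← sq_abs ρ.re]
        exact pow_le_pow_left₀ (abs_nonneg _) h6 2
      nlinarith [sq_nonneg h]) (I * t + (x : ℂ)) (by simp; linarith)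
    have e1 : (I * t + (x : ℂ) - (h : ℂ)) = I * t + ((x - h : ℝ) : ℂ) := by push_cast; ring
    have e2 : (I * t + (x : ℂ) + (h : ℂ)) = I * t + ((x + h : ℝ) : ℂ) := by push_cast; ring
    rw [e1, e2] at h5
    exact h5
  · have hx2 : η ≤ x := by linarith
    · -- middle
      rw [refl (x - h) t]
      have ha0 : 0 ≤ |x - h| := abs_nonneg _
      have ha1 : |x - h| ≤ 1 / 2 := by
        rw [abs_le]
        constructor <;> linarith
      refine lt_of_le_of_lt (hUB |x - h| ha0 ha1) (lt_of_lt_of_le ?_ (hLB (x + h) (by linarith)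
        (by linarith)))
      apply mul_lt_mul_of_pos_right _ hHpos
      apply Real.exp_lt_exp.mpr
      have hm : max |x - h| x0 ≤ x + h - 2 * η := by
        apply max_le
        · rw [abs_le]
          constructor <;> linarith
        · rw [hx0]
          linarith
      have hm2 : max |x - h| x0 * (L / 2) ≤ (x + h - 2 * η) * (L / 2) :=
        mul_le_mul_of_nonneg_right hm (by linarith)
      nlinarith
end TR3Aux

theorem tr3a (h1 : S_HH) (h2 : S_PL) (h3 : S_TP) (y h y1 : ℝ) (hy : 0 ≤ y) (hy2 : y < 1 / 2)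
    (hh0 : 0 < h) (hh : h ≤ 1 / 2) (hy1 : 0 < y1) (hyh : y - h < y1) (hy1' : y1 ≤ 1 / 2) (hZ : ZB y) :
    ∃ T1 : ℝ, ∀ ω : ℂ, ‖ω‖ = 1 → OL2 h ω y1 T1 := by
  obtain ⟨T1, hT1, hm⟩ := TR3Aux.main h1 h2 h3 y h y1 hy hy2 hh0 hh hy1 hyh hy1' hZ
  refine ⟨T1, fun ω hω z hz hzT => ?_⟩
  -- norm equality
  have hn : ‖XX (z + h)‖ = ‖XX (z - h)‖ := by
    unfold TX at hz
    have h4 : XX (z + h) = -(ω * XX (z - h)) := eq_neg_of_add_eq_zero_left hz
    rw [h4, norm_neg, norm_mul, hω, one_mul]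
  -- positive real part, positive imaginary part
  have key : ∀ w : ℂ, y1 < w.re → T1 ≤ w.im → ‖XX (w - h)‖ < ‖XX (w + h)‖ := by
    intro w hw hwT
    have h5 := hm w.im w.re hwT hw
    have e0 : w = I * (w.im : ℂ) + (w.re : ℂ) := by
      apply Complex.ext
      · simp
      · simp
    have e1 : I * (w.im : ℂ) + ((w.re - h : ℝ) : ℂ) = w - h := by
      conv_rhs => rw [e0]
      push_cast
      ring
    have e2 : I * (w.im : ℂ) + ((w.re + h : ℝ) : ℂ) = w + h := by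
      conv_rhs => rw [e0]
      push_cast
      ring
    rw [e1, e2] at h5
    exact h5
  have key2 : ∀ w : ℂ, y1 < w.re → T1 ≤ |w.im| → ‖XX (w - h)‖ < ‖XX (w + h)‖ := by
    intro w hw hwT
    rcases le_total 0 w.im with h6 | h6
    · rw [abs_of_nonneg h6] at hwT
      exact key w hw hwT
    · rw [abs_of_nonpos h6] at hwT
      have h7 := key ((starRingEnd ℂ) w) (by rw [Complex.conj_re]; exact hw)
        (by rw [Complex.conj_im]; exact hwT)
      have e1 : (starRingEnd ℂ) w - (h : ℂ) = (starRingEnd ℂ) (w - h) := by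
        rw [map_sub, Complex.conj_ofReal]
      have e2 : (starRingEnd ℂ) w + (h : ℂ) = (starRingEnd ℂ) (w + h) := by
        rw [map_add, Complex.conj_ofReal]
      rw [e1, e2, Pool.Agent.H24R2.JP.B1h.XX_conj, Pool.Agent.H24R2.JP.B1h.XX_conj,
        Complex.norm_conj, Complex.norm_conj] at h7
      exact h7
  by_contra hcz
  push Not at hcz
  rcases lt_abs.1 hcz with hr | hr
  swap
  · have h8 := key2 (-z) (by rw [Complex.neg_re]; linarith) (by rw [Complex.neg_im, abs_neg]; exact hzT)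
    have e1 : -z - (h : ℂ) = -(z + h) := by ring
    have e2 : -z + (h : ℂ) = -(z - h) := by ring
    rw [e1, e2, Pool.Agent.H24R2.JP.B1h.XX_neg, Pool.Agent.H24R2.JP.B1h.XX_neg] at h8
    rw [hn] at h8
    exact absurd h8 (lt_irrefl _)
  · have h8 := key2 z hr hzT
    rw [hn] at h8
    exact absurd h8 (lt_irrefl _)

theorem tr3 (h1 : S_HH) (h2 : S_PL) (h3 : S_TP) : S_TR3 := by
  intro y h y1 hy hy2 hh0 hh hy1 hyh hZ
  rcases le_or_gt y1 (1 / 2) with hle | hgt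
  · exact tr3a h1 h2 h3 y h y1 hy hy2 hh0 hh hy1 hyh hle hZ
  · obtain ⟨T1, hT⟩ := tr3a h1 h2 h3 y h (1 / 2) hy hy2 hh0 hh (by norm_num) (by linarith) le_rfl hZ
    exact ⟨T1, fun ω hω z hz hzT => (hT ω hω z hz hzT).trans hgt.le⟩

end Pool.Agent.H986R2.TR
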