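import Pool.Agent.H986R2.TR.Spec3
import Pool.Agent.H986R2.K4.A1
import Pool.Agent.H24R2.DZ.XB

set_option autoImplicit false

/-!
# TR, task 45: lower bound for `TX` to the right of the line
-/

namespace Pool.Agent.H986R2.TR

open Complex Filter Topology MeasureTheory Set
open Pool.Agent.H24R2.JP (XX HH Om)
open Pool.Agent.H986R2.K4 (ZB S_SAB S_HH S_PL S_VDC S_V0 S_A1 xi)

namespace TUpAux

theorem diff_XX : Differentiable ℂ XX := by
  have h0 : Differentiable ℂ (fun z : ℂ => completedRiemannZeta₀ (1 / 2 + z)) :=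
    differentiable_completedZeta₀.comp (differentiable_id.const_add _)
  have h1 : Differentiable ℂ (fun z : ℂ => (4 * z ^ 2 - 1)) := by fun_prop
  have : XX = fun z : ℂ => (4 * z ^ 2 - 1) * completedRiemannZeta₀ (1 / 2 + z) + 4 := rfl
  rw [this]
  exact (h1.mul h0).add_const _

/-- the norm of a point of the square is at most 15. -/
theorem norm_le {u : ℂ} (h1 : |u.re| ≤ 11) (h2 : |u.im| ≤ 10) : ‖u‖ ≤ 15 := by
  rw [Complex.norm_eq_sqrt_sq_add_sq]
  apply Real.sqrt_le_iff.mpr
  refine ⟨by norm_num, ?_⟩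
  have := abs_le.mp h1
  have := abs_le.mp h2
  nlinarith [sq_abs u.re, sq_abs u.im, abs_nonneg u.re, abs_nonneg u.im]

theorem norm_add_le16 {u : ℂ} {h : ℝ} (hu : ‖u‖ ≤ 15) (h0 : |h| ≤ 1) : ‖u + (h : ℂ)‖ ≤ 16 := by
  refine (norm_add_le _ _).trans ?_
  rw [Complex.norm_real, Real.norm_eq_abs]
  linarith

end TUpAux

open TUpAux in
theorem tup (h1 : S_SAB) (h2 : S_HH) : S_TUP2 := by
  intro h y1 η0 η hh0 hh hy10 hy1h hη0 hη0' hη
  obtain ⟨K, hK, hHH⟩ := h2
  obtain ⟨TH, hTH, hHH⟩ := hHH 16 (by norm_num)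
  obtain ⟨KX, TX', hTX', hXB⟩ := Pool.Agent.H24R2.DZ.xb 16
  obtain ⟨ε, hε, hS⟩ := h1 η0 η (|KX| + 16 * K + 1) hη0 hη0' hη (by positivity)
  obtain ⟨δ, hδ0, hδε, hδh, hδ2⟩ : ∃ δ : ℝ, 0 < δ ∧ δ ≤ ε / 4 ∧ δ ≤ h / 16 ∧ δ ≤ 1 / 2 :=
    ⟨min (ε / 4) (min (h / 16) (1 / 2)), lt_min (by positivity) (lt_min (by positivity) (by norm_num)),
      min_le_left _ _, (min_le_right _ _).trans (min_le_left _ _),
      (min_le_right _ _).trans (min_le_right _ _)⟩
  obtain ⟨TA, hTA, hA⟩ := Pool.Agent.H986R2.K4.a1 δ hδ0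
  obtain ⟨L0, hL01, hL02, hL03⟩ : ∃ L0 : ℝ, 1 ≤ L0 ∧ (32 * K + 1) * (4 / (3 * h)) ≤ L0 ∧
      2 / ε ≤ L0 :=
    ⟨max 1 (max ((32 * K + 1) * (4 / (3 * h))) (2 / ε)), le_max_left _ _,
      (le_max_left _ _).trans (le_max_right _ _), (le_max_right _ _).trans (le_max_right _ _)⟩
  refine ⟨max (max TH TX') (max (TA + 20) (Real.exp L0)), ?_, ?_⟩
  · exact le_trans hTH (le_trans (le_max_left _ _) (le_max_left _ _))
  intro t ω ht hω hz
  have htH : TH ≤ t := le_trans (le_trans (le_max_left _ _) (le_max_left _ _)) ht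
  have htX : TX' ≤ t := le_trans (le_trans (le_max_right _ _) (le_max_left _ _)) ht
  have htA : TA + 20 ≤ t := le_trans (le_trans (le_max_left _ _) (le_max_right _ _)) ht
  have htE : Real.exp L0 ≤ t := le_trans (le_trans (le_max_right _ _) (le_max_right _ _)) ht
  have ht20 : 20 ≤ t := by linarith
  have ht0 : 0 < t := by linarith
  have hlog : L0 ≤ Real.log t := (Real.le_log_iff_exp_le ht0).mpr htE
  obtain ⟨L, hL⟩ : ∃ L, L = Real.log t := ⟨_, rfl⟩
  rw [← hL] at hlog
  have hL1 : 1 ≤ L := hL01.trans hlog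
  have hLK : 32 * K + 1 ≤ (3 * h / 4) * L := by
    have := hL02.trans hlog
    rw [mul_div_assoc', div_le_iff₀ (by positivity)] at this
    linarith
  have hLε : 2 ≤ ε * L := by
    have := hL03.trans hlog
    rw [div_le_iff₀ hε] at this
    linarith
  have hOm : Om t = L / 2 := by rw [hL]; rfl
  have habsh : |h| ≤ 1 := by rw [abs_of_pos hh0]; linarith
  have habsh' : |-h| ≤ 1 := by rw [abs_neg]; exact habsh
  -- log 2 ≤ 1
  have hlog2 : Real.log 2 ≤ 1 := by
    have := Real.log_two_lt_d9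
    linarith
  have h2e : (2 : ℝ) ≤ Real.exp 1 := by
    have := Real.add_one_le_exp (1 : ℝ)
    linarith
  set g : ℂ → ℂ := fun v => TX h ω (I * t + v) / HH (I * t + (v + h)) with hg
  have hTXd : Differentiable ℂ (TX h ω) := by
    have e : TX h ω = fun z => XX (z + h) + ω * XX (z - h) := rfl
    rw [e]
    exact (diff_XX.comp (differentiable_id.add_const _)).add
      ((diff_XX.comp (differentiable_id.sub_const _)).const_mul ω)
  have hF0 : ∀ u : ℂ, y1 < u.re → |u.im| ≤ 10 → TX h ω (I * t + u) ≠ 0 := by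
    intro u hu hu2 h0
    have := hz (I * t + u) h0 (by
      have : (I * (t : ℂ) + u).im - t = u.im := by simp
      rw [this]; linarith)
    simp at this
    have h7 := le_abs_self u.re
    linarith
  have hH : ∀ u : ℂ, |u.re| ≤ 11 → |u.im| ≤ 10 → DifferentiableAt ℂ HH (I * t + (u + h)) ∧
      HH (I * t + (u + h)) ≠ 0 ∧
      Real.exp (Om t * (u.re + h) - K * 16) * ‖HH (I * t)‖ ≤ ‖HH (I * t + (u + h))‖ := by
    intro u hu hu2
    obtain ⟨a, b, c, d, _⟩ := hHH t (u + h) htH (norm_add_le16 (norm_le hu hu2) habsh)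
    refine ⟨a, b, ?_⟩
    simpa using d
  have hH' : ∀ u : ℂ, |u.re| ≤ 11 → |u.im| ≤ 10 →
      ‖HH (I * t + (u - h))‖ ≤ Real.exp (Om t * (u.re - h) + K * 16) * ‖HH (I * t)‖ := by
    intro u hu hu2
    have e : u - (h : ℂ) = u + ((-h : ℝ) : ℂ) := by push_cast; ring
    rw [e]
    obtain ⟨a, b, c, d, k⟩ := hHH t (u + ((-h : ℝ) : ℂ)) htH
      (norm_add_le16 (norm_le hu hu2) habsh')
    have e2 : (u + ((-h : ℝ) : ℂ)).re = u.re - h := by simp; ring
    rw [e2] at k
    exact k
  have hgn : ∀ u : ℂ, ‖g u‖ = ‖TX h ω (I * t + u)‖ / ‖HH (I * t + (u + h))‖ := by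
    intro u
    rw [hg]; simp only
    rw [norm_div]
  have key : (∀ u : ℂ, y1 < u.re → u.re ≤ 11 → |u.im| ≤ 10 → DifferentiableAt ℂ g u ∧ g u ≠ 0 ∧
      ‖g u‖ ≤ Real.exp ((|KX| + 16 * K + 1) * L)) → (∀ u : ℂ, 3 / 2 ≤ u.re → u.re ≤ 11 → |u.im| ≤ 10 →
      Real.exp (-(ε * L)) ≤ ‖g u‖ ∧ ‖g u‖ ≤ Real.exp (ε * L)) →
      ∀ u : ℂ, y1 + η0 ≤ u.re → u.re ≤ 1 → |u.im| ≤ 1 → ‖g u‖ ≤ Real.exp (η * L) := by
    intro q1 q2 u hu1 hu2 hu3
    have := hS L (fun w => g (w + (y1 : ℂ))) hL1 (by
      intro w hw1 hw2 hw3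
      have e1 : (w + (y1 : ℂ)).re = w.re + y1 := by simp
      have e2 : (w + (y1 : ℂ)).im = w.im := by simp
      obtain ⟨r1, r2, r3⟩ := q1 (w + (y1 : ℂ)) (by rw [e1]; linarith) (by rw [e1]; linarith)
        (by rw [e2]; exact hw3)
      refine ⟨?_, r2, r3⟩
      exact DifferentiableAt.comp (g := g) (f := fun w : ℂ => w + (y1 : ℂ)) w r1
        (differentiableAt_id.add_const _)) (by
      intro w hw1 hw2 hw3
      have e1 : (w + (y1 : ℂ)).re = w.re + y1 := by simp
      have e2 : (w + (y1 : ℂ)).im = w.im := by simp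
      exact q2 (w + (y1 : ℂ)) (by rw [e1]; linarith) (by rw [e1]; linarith)
        (by rw [e2]; exact hw3)) (u - (y1 : ℂ)) (by simp; linarith) (by simp; linarith)
        (by simp; linarith)
    have e3 : u - (y1 : ℂ) + (y1 : ℂ) = u := by ring
    have h4 := this.2.2
    simp only [e3] at h4
    exact h4
  have key2 := key ?_ ?_
  · intro u hu1 hu2 hu3
    have hur : |u.re| ≤ 11 := by rw [abs_of_nonneg (by linarith)]; linarith
    have hui : |u.im| ≤ 10 := by linarith
    obtain ⟨a1, a2, a3⟩ := hH u hur hui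
    have k2 := key2 u hu1 (by linarith) (by linarith)
    rw [hgn, div_le_iff₀ (norm_pos_iff.mpr a2)] at k2
    have e : t ^ η = Real.exp (η * L) := by
      rw [Real.rpow_def_of_pos ht0, ← hL]; congr 1; ring
    rw [e]
    exact k2
  · intro u hu1 hu2 hu3
    have hur : |u.re| ≤ 11 := by rw [abs_of_nonneg (by linarith)]; linarith
    obtain ⟨a1, a2, a3⟩ := hH u hur hu3
    have hFu := hF0 u hu1 hu3
    refine ⟨?_, div_ne_zero hFu a2, ?_⟩
    · have hd : DifferentiableAt ℂ (fun v : ℂ => I * t + v) u := differentiableAt_id.const_add _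
      have b1 : DifferentiableAt ℂ (fun v : ℂ => TX h ω (I * t + v)) u :=
        DifferentiableAt.comp u hTXd.differentiableAt hd
      have hd2 : DifferentiableAt ℂ (fun v : ℂ => I * t + (v + h)) u :=
        (differentiableAt_id.add_const _).const_add _
      have b2 : DifferentiableAt ℂ (fun v : ℂ => HH (I * t + (v + h))) u :=
        DifferentiableAt.comp (g := HH) (f := fun v : ℂ => I * t + (v + h)) u a1 hd2
      exact b1.div b2 a2
    · rw [hgn, div_le_iff₀ (norm_pos_iff.mpr a2)]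
      have b1 := (hXB t (u + h) htX (norm_add_le16 (norm_le hur hu3) habsh)).1
      have b2 := (hXB t (u + ((-h : ℝ) : ℂ)) htX (norm_add_le16 (norm_le hur hu3) habsh')).1
      rw [← hL] at b1 b2
      have b3 : ‖TX h ω (I * t + u)‖ ≤ 2 * (Real.exp (KX * L) * ‖HH (I * t)‖) := by
        have e1 : I * t + u + h = I * t + (u + h) := by ring
        have e2 : I * t + u - h = I * t + (u + ((-h : ℝ) : ℂ)) := by push_cast; ring
        have e3 : TX h ω (I * t + u) = XX (I * t + (u + h)) +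
            ω * XX (I * t + (u + ((-h : ℝ) : ℂ))) := by
          rw [TX, e1, e2]
        rw [e3]
        refine (norm_add_le _ _).trans ?_
        rw [norm_mul, hω, one_mul]
        linarith
      have b4 : Real.exp (-(16 * K)) * ‖HH (I * t)‖ ≤ ‖HH (I * t + (u + h))‖ := by
        refine le_trans ?_ a3
        apply mul_le_mul_of_nonneg_right _ (norm_nonneg _)
        apply Real.exp_le_exp.mpr
        have : 0 ≤ Om t * (u.re + h) := by
          rw [hOm]
          have : 0 ≤ u.re + h := by linarith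
          positivity
        linarith
      have b5 : ‖HH (I * t)‖ ≤ Real.exp (16 * K) * ‖HH (I * t + (u + h))‖ := by
        have := mul_le_mul_of_nonneg_left b4 (Real.exp_pos (16 * K)).le
        rwa [← mul_assoc, ← Real.exp_add, add_neg_cancel, Real.exp_zero, one_mul] at this
      refine b3.trans ?_
      calc 2 * (Real.exp (KX * L) * ‖HH (I * t)‖)
          ≤ Real.exp 1 * (Real.exp (KX * L) * (Real.exp (16 * K) * ‖HH (I * t + (u + h))‖)) := by
            gcongr
        _ = Real.exp (1 + KX * L + 16 * K) * ‖HH (I * t + (u + h))‖ := by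
            rw [Real.exp_add, Real.exp_add]; ring
        _ ≤ Real.exp ((|KX| + 16 * K + 1) * L) * ‖HH (I * t + (u + h))‖ := by
            apply mul_le_mul_of_nonneg_right _ (norm_nonneg _)
            apply Real.exp_le_exp.mpr
            have c1 : KX * L ≤ |KX| * L := mul_le_mul_of_nonneg_right (le_abs_self _) (by linarith)
            have c2 : 16 * K ≤ 16 * K * L := by nlinarith
            nlinarith
  · intro u hu1 hu2 hu3
    have hur : |u.re| ≤ 11 := by rw [abs_of_nonneg (by linarith)]; linarith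
    obtain ⟨a1, a2, a3⟩ := hH u hur hu3
    have a4 := hH' u hur hu3
    have hup := abs_le.mp hu3
    have hHpos : 0 < ‖HH (I * t + (u + h))‖ := norm_pos_iff.mpr a2
    -- XX at both points
    have im1 : (I * (t : ℂ) + (u + h)).im = t + u.im := by simp
    have im2 : (I * (t : ℂ) + (u - h)).im = t + u.im := by simp
    have x1 : XX (I * t + (u + h)) = HH (I * t + (u + h)) * riemannZeta (1 / 2 + (I * t + (u + h))) :=
      Pool.Agent.H24R2.JP.zetaS.1 _ (by rw [im1]; linarith)
    have x2 : XX (I * t + (u - h)) = HH (I * t + (u - h)) * riemannZeta (1 / 2 + (I * t + (u - h))) :=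
      Pool.Agent.H24R2.JP.zetaS.1 _ (by rw [im2]; linarith)
    have sre1 : (1 / 2 + (I * (t : ℂ) + (u + h)) : ℂ).re = 1 / 2 + u.re + h := by
      simp; ring
    have sre2 : (1 / 2 + (I * (t : ℂ) + (u - h)) : ℂ).re = 1 / 2 + u.re - h := by
      simp; ring
    have sim1 : (1 / 2 + (I * (t : ℂ) + (u + h)) : ℂ).im = t + u.im := by
      simp
    have sim2 : (1 / 2 + (I * (t : ℂ) + (u - h)) : ℂ).im = t + u.im := by
      simp
    obtain ⟨z1, z2, z3, z4⟩ := hA (1 / 2 + (I * t + (u + h))) (by rw [sre1]; linarith)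
      (by rw [sim1]; linarith)
    obtain ⟨w1, w2, w3, w4⟩ := hA (1 / 2 + (I * t + (u - h))) (by rw [sre2]; linarith)
      (by rw [sim2]; linarith)
    rw [sim1] at z3 z4
    rw [sim2] at w4
    have hτ0 : 0 < t + u.im := by linarith
    have hτ1 : t + u.im ≤ 2 * t := by linarith
    have hlogτ : Real.log (t + u.im) ≤ 2 * L := by
      have : Real.log (t + u.im) ≤ Real.log (2 * t) := Real.log_le_log hτ0 hτ1
      rw [Real.log_mul (by norm_num) ht0.ne', ← hL] at this
      linarith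
    have p1 : (t + u.im) ^ δ ≤ Real.exp (2 * δ * L) := by
      rw [Real.rpow_def_of_pos hτ0]
      apply Real.exp_le_exp.mpr
      nlinarith
    have p2 : Real.exp (-(2 * δ * L)) ≤ (t + u.im) ^ (-δ) := by
      rw [Real.rpow_def_of_pos hτ0]
      apply Real.exp_le_exp.mpr
      nlinarith
    have ratio : ‖HH (I * t + (u - h))‖ ≤ Real.exp (-(h * L) + 32 * K) * ‖HH (I * t + (u + h))‖ := by
      refine a4.trans ?_
      calc Real.exp (Om t * (u.re - h) + K * 16) * ‖HH (I * t)‖
          = Real.exp (-(h * L) + 32 * K) *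
            (Real.exp (Om t * (u.re + h) - K * 16) * ‖HH (I * t)‖) := by
            rw [← mul_assoc, ← Real.exp_add, hOm]; congr 2; ring
        _ ≤ _ := by gcongr
    -- the small term
    have small : Real.exp (2 * δ * L) * Real.exp (-(h * L) + 32 * K) ≤
        Real.exp (-(2 * δ * L)) / 2 := by
      rw [← Real.exp_add, le_div_iff₀ (by norm_num : (0 : ℝ) < 2)]
      calc Real.exp (2 * δ * L + (-(h * L) + 32 * K)) * 2
          ≤ Real.exp (2 * δ * L + (-(h * L) + 32 * K)) * Real.exp 1 := by gcongr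
        _ = Real.exp (2 * δ * L + (-(h * L) + 32 * K) + 1) := by rw [← Real.exp_add]
        _ ≤ Real.exp (-(2 * δ * L)) := by
          apply Real.exp_le_exp.mpr
          have : δ * L ≤ h / 16 * L := mul_le_mul_of_nonneg_right hδh (by linarith)
          nlinarith
    have e1 : I * t + u + h = I * t + (u + h) := by ring
    have e2 : I * t + u - h = I * t + (u - h) := by ring
    have e3 : TX h ω (I * t + u) = XX (I * t + (u + h)) + ω * XX (I * t + (u - h)) := by
      rw [TX, e1, e2]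
    have n1 : ‖XX (I * t + (u + h))‖ = ‖HH (I * t + (u + h))‖ *
        ‖riemannZeta (1 / 2 + (I * t + (u + h)))‖ := by rw [x1, norm_mul]
    have n2 : ‖ω * XX (I * t + (u - h))‖ ≤ ‖HH (I * t + (u + h))‖ *
        (Real.exp (2 * δ * L) * Real.exp (-(h * L) + 32 * K)) := by
      rw [norm_mul, hω, one_mul, x2, norm_mul]
      calc ‖HH (I * t + (u - h))‖ * ‖riemannZeta (1 / 2 + (I * t + (u - h)))‖
          ≤ (Real.exp (-(h * L) + 32 * K) * ‖HH (I * t + (u + h))‖) * Real.exp (2 * δ * L) := by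
            gcongr
            exact w4.trans p1
        _ = _ := by ring
    have n3 : ‖ω * XX (I * t + (u - h))‖ ≤ ‖HH (I * t + (u + h))‖ *
        (Real.exp (-(2 * δ * L)) / 2) :=
      n2.trans (mul_le_mul_of_nonneg_left small hHpos.le)
    have δL : δ * L ≤ ε / 4 * L := mul_le_mul_of_nonneg_right hδε (by linarith)
    have δL0 : 0 ≤ δ * L := by positivity
    rw [hgn, le_div_iff₀ hHpos, div_le_iff₀ hHpos, e3]
    constructor
    · have l1 : ‖HH (I * t + (u + h))‖ * Real.exp (-(2 * δ * L)) ≤ ‖XX (I * t + (u + h))‖ := by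
        rw [n1]
        exact mul_le_mul_of_nonneg_left (p2.trans z3) hHpos.le
      have l2 : ‖XX (I * t + (u + h))‖ - ‖ω * XX (I * t + (u - h))‖ ≤
          ‖XX (I * t + (u + h)) + ω * XX (I * t + (u - h))‖ := by
        have := norm_sub_norm_le (XX (I * t + (u + h))) (-(ω * XX (I * t + (u - h))))
        rwa [norm_neg, sub_neg_eq_add] at this
      have l3 : Real.exp (-(ε * L)) ≤ Real.exp (-(2 * δ * L)) / 2 := by
        rw [le_div_iff₀ (by norm_num : (0 : ℝ) < 2)]
        calc Real.exp (-(ε * L)) * 2 ≤ Real.exp (-(ε * L)) * Real.exp 1 := by gcongr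
          _ = Real.exp (-(ε * L) + 1) := by rw [← Real.exp_add]
          _ ≤ Real.exp (-(2 * δ * L)) := by
            apply Real.exp_le_exp.mpr
            nlinarith
      calc Real.exp (-(ε * L)) * ‖HH (I * t + (u + h))‖
          ≤ (Real.exp (-(2 * δ * L)) / 2) * ‖HH (I * t + (u + h))‖ := by gcongr
        _ = ‖HH (I * t + (u + h))‖ * Real.exp (-(2 * δ * L)) -
            ‖HH (I * t + (u + h))‖ * (Real.exp (-(2 * δ * L)) / 2) := by ring
        _ ≤ _ := by linarith
    · have l1 : ‖XX (I * t + (u + h))‖ ≤ ‖HH (I * t + (u + h))‖ * Real.exp (2 * δ * L) := by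
        rw [n1]
        exact mul_le_mul_of_nonneg_left (z4.trans p1) hHpos.le
      have l2 : Real.exp (-(2 * δ * L)) / 2 ≤ Real.exp (2 * δ * L) := by
        have q1 : Real.exp (-(2 * δ * L)) ≤ Real.exp (2 * δ * L) := by
          apply Real.exp_le_exp.mpr; nlinarith
        have q2 := Real.exp_pos (-(2 * δ * L))
        linarith
      have l3 : 2 * Real.exp (2 * δ * L) ≤ Real.exp (ε * L) := by
        calc 2 * Real.exp (2 * δ * L) ≤ Real.exp 1 * Real.exp (2 * δ * L) := by gcongr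
          _ = Real.exp (1 + 2 * δ * L) := by rw [← Real.exp_add]
          _ ≤ Real.exp (ε * L) := by
            apply Real.exp_le_exp.mpr
            nlinarith
      calc ‖XX (I * t + (u + h)) + ω * XX (I * t + (u - h))‖
          ≤ ‖XX (I * t + (u + h))‖ + ‖ω * XX (I * t + (u - h))‖ := norm_add_le _ _
        _ ≤ ‖HH (I * t + (u + h))‖ * Real.exp (2 * δ * L) +
            ‖HH (I * t + (u + h))‖ * Real.exp (2 * δ * L) :=
            add_le_add l1 (n3.trans (mul_le_mul_of_nonneg_left l2 hHpos.le))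
        _ = (2 * Real.exp (2 * δ * L)) * ‖HH (I * t + (u + h))‖ := by ring
        _ ≤ Real.exp (ε * L) * ‖HH (I * t + (u + h))‖ := by gcongr

end Pool.Agent.H986R2.TR
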