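import Pool.Agent.H986R2.TR.TP
import Pool.Agent.H986R2.TR.A2L
import Pool.Agent.H986R2.TR.PL2
import Pool.Agent.H986R2.TR.TR3
import Pool.Agent.H986R2.TR.TLow2
import Pool.Agent.H986R2.TR.TC2
import Pool.Agent.H986R2.TR.Sub
import Pool.Agent.H986R2.TR.TFin2
import Pool.Agent.H986R2.TR.TUp
import Pool.Agent.H986R2.TR.Ord3
import Pool.Agent.H986R2.K4.All

set_option autoImplicit false

/-!
# Composition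
-/

namespace Pool.Agent.H986R2.TR

open Pool.Agent.H986R2.K4 (S_A1 S_XI)

theorem a2LT : S_A2L := a2L Pool.Agent.H986R2.K4.sab Pool.Agent.H986R2.K4.a1

theorem tc2T : S_TC2 := tc2 a2LT Pool.Agent.H986R2.K4.a1 (pl2 Pool.Agent.H986R2.K4.hh)
  (tlow2 Pool.Agent.H986R2.K4.sab Pool.Agent.H986R2.K4.hh) Pool.Agent.H986R2.K4.hh

theorem tcT : S_TC := by
  intro μ0 h y T1 ω h1 h2 h3 h4 h5 h6 h7 h8 h9
  exact tc2T μ0 h y 0 T1 ω h1 h2 h3 h4 h5 le_rfl h6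
    (fun z hz hT => by rw [h7 z hz hT, abs_zero]) (by linarith) h9

theorem subT : S_SUB := sub Pool.Agent.H986R2.K4.vdcQ (Pool.Agent.H986R2.K4.pl Pool.Agent.H986R2.K4.hh)

theorem tfinT : S_TFIN := tfin tp a2LT (tr2 Pool.Agent.H986R2.K4.hh
  (Pool.Agent.H986R2.K4.pl Pool.Agent.H986R2.K4.hh) tp) tcT subT Pool.Agent.H986R2.K4.v0
  Pool.Agent.H986R2.K4.xiE

theorem tfin2T : S_TFIN2 := tfin2 a2LT (tr3 Pool.Agent.H986R2.K4.hh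
  (Pool.Agent.H986R2.K4.pl Pool.Agent.H986R2.K4.hh) tp) tc2T subT Pool.Agent.H986R2.K4.v0

theorem tc3T (h y y1 T1 : ℝ) (ω₁ ω₂ : ℂ) (hh0 : 0 < h) (hh1 : h < 1 / 2)
    (hy0 : 0 ≤ y1) (hω1 : ‖ω₁‖ = 1) (hω2 : ‖ω₂‖ = 1) (hne : ω₁ ≠ ω₂) (hL1 : OL2 h ω₁ y1 T1)
    (hL2 : OL2 h ω₂ y1 T1) (hy : h + y1 < y) : ∃ T2 : ℝ, ZF y T2 :=
  tc3 (ord3 (tup Pool.Agent.H986R2.K4.sab Pool.Agent.H986R2.K4.hh)
    (Pool.Agent.H986R2.K4.pl Pool.Agent.H986R2.K4.hh) Pool.Agent.H986R2.K4.hh) tc2T h y y1 T1 ω₁ ω₂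
    hh0 hh1 hy0 hω1 hω2 hne hL1 hL2 hy

/-- The converse from two values of `ω`, in terms of `ξ`. -/
theorem two (h y y1 : ℝ) (ω₁ ω₂ : ℂ) (hh0 : 0 < h) (hh1 : h < 1 / 2)
    (hy0 : 0 ≤ y1) (hω1 : ‖ω₁‖ = 1) (hω2 : ‖ω₂‖ = 1) (hne : ω₁ ≠ ω₂) (hL1 : InS h ω₁ y1)
    (hL2 : InS h ω₂ y1) (hy : h + y1 < y) : ∃ T2 : ℝ, ZF y T2 := by
  obtain ⟨T1, h1⟩ := TFin2Aux.OL2_of h ω₁ y1 hL1
  obtain ⟨T2, h2⟩ := TFin2Aux.OL2_of h ω₂ y1 hL2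
  exact tc3T h y y1 (max T1 T2) ω₁ ω₂ hh0 hh1 hy0 hω1 hω2 hne
    (fun z hz hT => h1 z hz ((le_max_left _ _).trans hT))
    (fun z hz hT => h2 z hz ((le_max_right _ _).trans hT)) hy

end Pool.Agent.H986R2.TR
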