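import Pool.Agent.H986R2.K4.Spec

set_option autoImplicit false

/-!
# Zeros of `ξ(s + h) + ω ξ(s - h)` and zero-free half-planes of zeta

`XX z = 8 ξ(1/2 + z)`, `XX z = HH z * ζ(1/2 + z)`, `Om t = (log t)/2`.  Every task is one `Prop`.
-/

namespace Pool.Agent.H986R2.TR

open Complex Filter Topology MeasureTheory Set
open Pool.Agent.H24R2.JP (XX HH Om)
open Pool.Agent.H986R2.K4 (ZB S_SAB S_HH S_PL S_VDC S_V0 S_A1 xi)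

/-- `XX (z + h) + ω XX (z - h)`. -/
noncomputable def TX (h : ℝ) (ω z : ℂ) : ℂ := XX (z + h) + ω * XX (z - h)

/-- Hadamard product inequality: if `ρ.re ^ 2 ≤ x0 ^ 2 + h ^ 2` for all zeros `ρ` of `XX`. -/
def S_TP : Prop := ∀ h x0 : ℝ, 0 < h → 0 ≤ x0 → (∀ ρ : ℂ, XX ρ = 0 → ρ.re ^ 2 ≤ x0 ^ 2 + h ^ 2) →
  ∀ z : ℂ, x0 < z.re → ‖XX (z - h)‖ < ‖XX (z + h)‖

/-- No zeros of zeta to the right of `1/2 + y` above the height `T1`. -/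
def ZF (y T1 : ℝ) : Prop := ∀ s : ℂ, 1 / 2 + y < s.re → T1 ≤ s.im → riemannZeta s ≠ 0

/-- `S_A2` with finitely many exceptions. -/
def S_A2L : Prop := ∀ y T1 : ℝ, 0 ≤ y → y < 1 / 2 → ZF y T1 → ZB y

/-- Convexity bound between the lines `Re = 0` and `Re = x0`. -/
def S_PL2 : Prop := ∀ x0 ν0 ν1 C t1 : ℝ, 0 < x0 → x0 ≤ 1 → 0 ≤ ν0 → ν0 ≤ 1 → 0 ≤ ν1 → ν1 ≤ 1 → 0 < C →
  1 ≤ t1 →
  (∀ t : ℝ, t1 ≤ t → ‖riemannZeta (1 / 2 + t * I)‖ ≤ C * t ^ ν0) →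
  (∀ t : ℝ, t1 ≤ t → ‖riemannZeta (1 / 2 + x0 + t * I)‖ ≤ C * t ^ ν1) →
  ∃ C' T0 : ℝ, 0 < C' ∧ 2 ≤ T0 ∧ ∀ t b : ℝ, T0 ≤ t → 0 ≤ b → b ≤ x0 →
    ‖XX (I * t + b)‖ ≤ C' * t ^ ((1 - b / x0) * ν0 + b / x0 * ν1) * (Real.exp (b * Om t) * ‖HH (I * t)‖)

/-- All zeros of `TX h ω` above `T1` (and below `-T1`) are on the line. -/
def OL (h : ℝ) (ω : ℂ) (T1 : ℝ) : Prop := ∀ z : ℂ, TX h ω z = 0 → T1 ≤ |z.im| → z.re = 0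

/-- Forward direction. -/
def S_TR2 : Prop := ∀ y h : ℝ, 0 ≤ y → y < h → h ≤ 1 / 2 → ZB y →
  ∃ T1 : ℝ, ∀ ω : ℂ, ‖ω‖ = 1 → OL h ω T1

/-- If the zeros near height `t` are on the line then `TX` is large to the right of the line. -/
def S_TLOW : Prop := ∀ h η0 η : ℝ, 0 < h → h ≤ 1 / 2 → 0 < η0 → η0 ≤ 1 / 4 → 0 < η →
  ∃ T0 : ℝ, 2 ≤ T0 ∧ ∀ (t : ℝ) (ω : ℂ), T0 ≤ t → ‖ω‖ = 1 →
  (∀ z : ℂ, TX h ω z = 0 → |z.im - t| ≤ 20 → z.re = 0) →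
  ∀ u : ℂ, η0 ≤ u.re → u.re ≤ 1 → |u.im| ≤ 1 →
    t ^ (-η) * ‖HH (I * t + (u + h))‖ ≤ ‖TX h ω (I * t + u)‖

/-- `μ0` is an upper bound for the order of zeta on the critical line. -/
def Ord (μ0 : ℝ) : Prop := ∀ ε : ℝ, 0 < ε → ∃ C : ℝ, 0 < C ∧ ∀ t : ℝ, 2 ≤ t →
  ‖riemannZeta (1 / 2 + t * I)‖ ≤ C * t ^ (μ0 + ε)

/-- Converse. -/
def S_TC : Prop := ∀ μ0 h y T1 : ℝ, ∀ ω : ℂ, 0 ≤ μ0 → μ0 ≤ 1 / 2 → Ord μ0 → 0 < h → h < 1 / 2 → ‖ω‖ = 1 →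
  OL h ω T1 → h < y → 2 * μ0 < y → ∃ T2 : ℝ, ZF y T2

/-- A subconvexity bound. -/
def S_SUB : Prop := ∃ μ0 : ℝ, 0 ≤ μ0 ∧ μ0 < 1 / 4 ∧ Ord μ0

/-- The function `ξ(s + h) + ω ξ(s - h)`. -/
noncomputable def TT (h : ℝ) (ω s : ℂ) : ℂ := xi (s + h) + ω * xi (s - h)

/-- All but finitely many zeros in the strict sense: all zeros of large height are on the line. -/
def OnL (h : ℝ) (ω : ℂ) : Prop := ∃ T1 : ℝ, ∀ s : ℂ, TT h ω s = 0 → T1 ≤ |s.im| → s.re = 1 / 2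

/-- The final statement. -/
def S_TFIN : Prop :=
  (∀ (h : ℝ) (ω : ℂ), 0 < h → ‖ω‖ = 1 → (∀ s : ℂ, 1 / 2 + h < s.re → riemannZeta s ≠ 0) →
    ∀ s : ℂ, TT h ω s = 0 → s.re = 1 / 2) ∧
  (∀ (y h : ℝ) (ω : ℂ), 0 ≤ y → y < h → h ≤ 1 / 2 → ‖ω‖ = 1 → (∃ T1 : ℝ, ZF y T1) → OnL h ω) ∧
  (∀ (μ0 h y : ℝ) (ω : ℂ), Ord μ0 → 0 < h → h < 1 / 2 → ‖ω‖ = 1 → OnL h ω → h < y → 2 * μ0 < y →
    ∃ T2 : ℝ, ZF y T2) ∧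
  ((∃ (h : ℝ) (ω : ℂ), 0 < h ∧ h < 1 / 2 ∧ ‖ω‖ = 1 ∧ OnL h ω) ↔
    ∃ θ : ℝ, θ < 1 ∧ ∀ s : ℂ, θ < s.re → riemannZeta s ≠ 0)

end Pool.Agent.H986R2.TR
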