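import Pool.Agent.H986R2.TR.Spec

set_option autoImplicit false

/-!
# Zeros of `ξ(s + h) + ω ξ(s - h)` and zero-free half-planes of zeta, strips
-/

namespace Pool.Agent.H986R2.TR

open Complex Filter Topology MeasureTheory Set
open Pool.Agent.H24R2.JP (XX HH Om)
open Pool.Agent.H986R2.K4 (ZB S_SAB S_HH S_PL S_VDC S_V0 S_A1 S_XI xi)

/-- All zeros of `TX h ω` of large height are in the strip `|Re z| ≤ y1`. -/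
def OL2 (h : ℝ) (ω : ℂ) (y1 T1 : ℝ) : Prop := ∀ z : ℂ, TX h ω z = 0 → T1 ≤ |z.im| → |z.re| ≤ y1

/-- Forward direction, strips. -/
def S_TR3 : Prop := ∀ y h y1 : ℝ, 0 ≤ y → y < 1 / 2 → 0 < h → h ≤ 1 / 2 → 0 < y1 → y - h < y1 → ZB y →
  ∃ T1 : ℝ, ∀ ω : ℂ, ‖ω‖ = 1 → OL2 h ω y1 T1

/-- If the zeros near height `t` are in the strip `|Re z| ≤ y1` then `TX` is large to the right. -/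
def S_TLOW2 : Prop := ∀ h y1 η0 η : ℝ, 0 < h → h ≤ 1 / 2 → 0 ≤ y1 → y1 ≤ 1 / 2 → 0 < η0 → η0 ≤ 1 / 4 →
  0 < η → ∃ T0 : ℝ, 2 ≤ T0 ∧ ∀ (t : ℝ) (ω : ℂ), T0 ≤ t → ‖ω‖ = 1 →
  (∀ z : ℂ, TX h ω z = 0 → |z.im - t| ≤ 20 → |z.re| ≤ y1) →
  ∀ u : ℂ, y1 + η0 ≤ u.re → u.re ≤ 1 → |u.im| ≤ 1 →
    t ^ (-η) * ‖HH (I * t + (u + h))‖ ≤ ‖TX h ω (I * t + u)‖

/-- Converse, strips. -/
def S_TC2 : Prop := ∀ μ0 h y y1 T1 : ℝ, ∀ ω : ℂ, 0 ≤ μ0 → μ0 ≤ 1 / 2 → Ord μ0 → 0 < h → h < 1 / 2 →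
  0 ≤ y1 → ‖ω‖ = 1 → OL2 h ω y1 T1 → h + y1 < y → 2 * μ0 < y → ∃ T2 : ℝ, ZF y T2

/-- All zeros of large height are in a strip. -/
def InS (h : ℝ) (ω : ℂ) (y1 : ℝ) : Prop :=
  ∃ T1 : ℝ, ∀ s : ℂ, TT h ω s = 0 → T1 ≤ |s.im| → |s.re - 1 / 2| ≤ y1

/-- The final statement, strips. -/
def S_TFIN2 : Prop :=
  (∀ (y h y1 : ℝ) (ω : ℂ), 0 ≤ y → y < 1 / 2 → 0 < h → h ≤ 1 / 2 → 0 < y1 → y - h < y1 → ‖ω‖ = 1 →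
    (∃ T1 : ℝ, ZF y T1) → InS h ω y1) ∧
  (∀ (μ0 h y y1 : ℝ) (ω : ℂ), Ord μ0 → 0 < h → h < 1 / 2 → 0 ≤ y1 → ‖ω‖ = 1 → InS h ω y1 →
    h + y1 < y → 2 * μ0 < y → ∃ T2 : ℝ, ZF y T2) ∧
  (∀ (h : ℝ) (ω : ℂ), 0 < h → h < 1 / 2 → ‖ω‖ = 1 →
    ((∃ y1 : ℝ, y1 < 1 / 2 - h ∧ InS h ω y1) ↔
      ∃ θ : ℝ, θ < 1 ∧ ∀ s : ℂ, θ < s.re → riemannZeta s ≠ 0))

end Pool.Agent.H986R2.TR
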