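import Pool.Agent.H986R2.TR.Spec2

set_option autoImplicit false

/-!
# Two values of `ω`: unconditional converse
-/

namespace Pool.Agent.H986R2.TR

open Complex Filter Topology MeasureTheory Set
open Pool.Agent.H24R2.JP (XX HH Om)
open Pool.Agent.H986R2.K4 (ZB S_SAB S_HH S_PL S_VDC S_V0 S_A1 S_XI xi)

/-- If the zeros near height `t` are in the strip `|Re z| ≤ y1` then `TX` is small to the right. -/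
def S_TUP2 : Prop := ∀ h y1 η0 η : ℝ, 0 < h → h ≤ 1 / 2 → 0 ≤ y1 → y1 ≤ 1 / 2 → 0 < η0 → η0 ≤ 1 / 4 →
  0 < η → ∃ T0 : ℝ, 2 ≤ T0 ∧ ∀ (t : ℝ) (ω : ℂ), T0 ≤ t → ‖ω‖ = 1 →
  (∀ z : ℂ, TX h ω z = 0 → |z.im - t| ≤ 20 → |z.re| ≤ y1) →
  ∀ u : ℂ, y1 + η0 ≤ u.re → u.re ≤ 1 → |u.im| ≤ 1 →
    ‖TX h ω (I * t + u)‖ ≤ t ^ η * ‖HH (I * t + (u + h))‖

/-- The order of zeta from two values of `ω`. -/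
def S_ORD3 : Prop := ∀ h y1 T1 : ℝ, ∀ ω₁ ω₂ : ℂ, 0 < h → h < 1 / 2 → 0 ≤ y1 → y1 ≤ 1 / 2 →
  ‖ω₁‖ = 1 → ‖ω₂‖ = 1 → ω₁ ≠ ω₂ → OL2 h ω₁ y1 T1 → OL2 h ω₂ y1 T1 → Ord ((h + y1) / 2)

end Pool.Agent.H986R2.TR
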