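import Pool.Agent.H986R2.TR.Spec
import Pool.Agent.H24R2.JP.B1
import Pool.Agent.H24R2.JP.Zeta

set_option autoImplicit false

/-!
# The converse: zeros of `ξ(s + h) + ω ξ(s - h)` on the line give a zero-free half-plane (task 46, helper722)
-/

namespace Pool.Agent.H986R2.TR

open Complex Filter Topology MeasureTheory Set
open Pool.Agent.H24R2.JP (XX HH Om)
open Pool.Agent.H986R2.K4 (ZB S_HH S_A1)

namespace TCAux

theorem XX_refl (t b : ℝ) : ‖XX (I * t + ((-b : ℝ) : ℂ))‖ = ‖XX (I * t + (b : ℂ))‖ := by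
  have e : (I * t + ((-b : ℝ) : ℂ)) = -((starRingEnd ℂ) (I * t + (b : ℂ))) := by
    apply Complex.ext <;> simp
  rw [e, Pool.Agent.H24R2.JP.B1h.XX_neg, Pool.Agent.H24R2.JP.B1h.XX_conj, RCLike.norm_conj]

theorem XX_abs (t c : ℝ) : ‖XX (I * t + (c : ℂ))‖ = ‖XX (I * t + ((|c| : ℝ) : ℂ))‖ := by
  rcases abs_choice c with h | h
  · rw [h]
  · rw [h, XX_refl]

theorem exp_Om (t b : ℝ) (ht : 0 < t) : Real.exp (b * Om t) = t ^ (b / 2) := by
  unfold Om
  rw [Real.rpow_def_of_pos ht]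
  congr 1
  ring

/-- the exponent -/
theorem expo (Y y h μ ε c0 x0 xp b : ℝ) (hμ : 0 ≤ μ) (h2μ : 2 * μ < y) (hyY : y ≤ Y)
    (hx0 : x0 = Y + 2 * ε) (hx1 : x0 ≤ 1) (hε : 0 < ε) (hεc : 8 * ε ≤ c0) (hy : 0 < y)
    (hε2 : 2 * ε ≤ y - h) (h0 : 0 < h)
    (hc0 : c0 = min (2 * h) (y - h) * (y - 2 * μ) / 2)
    (h1 : Y - ε < xp) (h2 : xp ≤ Y + ε) (hb : b = |xp - 2 * h|) :
    c0 / 2 ≤ (xp / 2 - ε) - (b / 2 + ((1 - b / x0) * (μ + ε) + b / x0 * ε)) := by
  have hx0p : 0 < x0 := by rw [hx0]; linarith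
  set m := μ / x0 with hm
  have hm0 : 0 ≤ m := div_nonneg hμ hx0p.le
  have hm12 : m ≤ 1 / 2 := by
    rw [hm, div_le_iff₀ hx0p]; linarith
  have e1 : (1 - b / x0) * (μ + ε) + b / x0 * ε = (x0 - b) * m + ε := by
    rw [hm]; field_simp; ring
  rw [e1]
  -- 1/2 - m
  have hm3 : (y - 2 * μ) / 2 ≤ 1 / 2 - m := by
    rw [hm]
    have : 1 / 2 - μ / x0 = (x0 - 2 * μ) / (2 * x0) := by field_simp
    rw [this, div_le_div_iff₀ (by norm_num) (by linarith)]
    nlinarith
  have hδ : min (2 * h) (y - h) ≤ xp - b := by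
    rw [hb]
    rcases abs_cases (xp - 2 * h) with ⟨ha, _⟩ | ⟨ha, _⟩
    · rw [ha]
      exact (min_le_left _ _).trans (by linarith)
    · rw [ha]
      exact (min_le_right _ _).trans (by linarith)
  have hδ0 : 0 < min (2 * h) (y - h) := lt_min (by linarith) (by linarith)
  have hq : 0 < (y - 2 * μ) / 2 := by linarith
  have e2 : c0 ≤ (xp - b) * (1 / 2 - m) := by
    rw [hc0]
    calc min (2 * h) (y - h) * (y - 2 * μ) / 2 = min (2 * h) (y - h) * ((y - 2 * μ) / 2) := by ring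
      _ ≤ (xp - b) * (1 / 2 - m) := mul_le_mul hδ hm3 hq.le (by linarith)
  have e3 : (x0 - xp) * m ≤ 3 * ε * (1 / 2) := by
    refine mul_le_mul ?_ hm12 hm0 (by positivity)
    rw [hx0]; linarith
  nlinarith

end TCAux

open TCAux in
theorem tc (h1 : S_A2L) (h2 : S_A1) (h3 : S_PL2) (h4 : S_TLOW) (h5 : S_HH) : S_TC := by
  intro μ h y T1 ω hμ0 hμ1 hOrd hh hh1 hω hOL hhy hμy
  by_contra hcon
  push Not at hcon
  have hy0 : 0 < y := lt_trans hh hhy
  -- the zero free half plane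
  have hZhalf : ∀ T y' : ℝ, 1 / 2 ≤ y' → ZF y' T := fun T y' hy' s hs _ =>
    riemannZeta_ne_zero_of_one_le_re (by linarith)
  have hy12 : y < 1 / 2 := by
    by_contra hge
    push Not at hge
    exact hcon 0 (hZhalf 0 y hge)
  set A : Set ℝ := {y' : ℝ | 0 ≤ y' ∧ ∃ T, ZF y' T} with hA
  have hA12 : (1 / 2 : ℝ) ∈ A := ⟨by norm_num, 0, hZhalf 0 _ le_rfl⟩
  have hAy : ∀ y' ∈ A, y ≤ y' := by
    rintro y' ⟨-, T, hT⟩
    by_contra hlt
    push Not at hlt
    exact hcon T (fun s hs hsT => hT s (by linarith) hsT)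
  have hbdd : BddBelow A := ⟨y, hAy⟩
  set Y := sInf A with hY
  have hyY : y ≤ Y := le_csInf ⟨_, hA12⟩ hAy
  have hY12 : Y ≤ 1 / 2 := csInf_le hbdd hA12
  -- the constants
  set c0 : ℝ := min (2 * h) (y - h) * (y - 2 * μ) / 2 with hc0
  have hc0p : 0 < c0 := by
    rw [hc0]
    have : 0 < min (2 * h) (y - h) := lt_min (by linarith) (by linarith)
    have h' : 0 < y - 2 * μ := by linarith
    positivity
  set ε : ℝ := min (1 / 8) (min (y / 2) (min ((y - h) / 2) (c0 / 8))) with hε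
  have hεp : 0 < ε := by
    rw [hε]
    refine lt_min (by norm_num) (lt_min (by linarith) (lt_min (by linarith) (by linarith)))
  have hε1 : ε ≤ 1 / 8 := min_le_left _ _
  have hε2 : ε ≤ y / 2 := (min_le_right _ _).trans (min_le_left _ _)
  have hε3 : ε ≤ (y - h) / 2 := ((min_le_right _ _).trans (min_le_right _ _)).trans (min_le_left _ _)
  have hε4 : ε ≤ c0 / 8 := ((min_le_right _ _).trans (min_le_right _ _)).trans (min_le_right _ _)
  clear_value ε
  -- zeros to the right of `Y - ε`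
  have hzer : ∀ T : ℝ, ∃ s : ℂ, 1 / 2 + (Y - ε) < s.re ∧ T ≤ s.im ∧ riemannZeta s = 0 := by
    intro T
    by_contra hno
    push Not at hno
    have hmem : Y - ε ∈ A := ⟨by linarith, T, fun s hs hsT => hno s hs hsT⟩
    have := csInf_le hbdd hmem
    rw [← hY] at this
    linarith
  -- no zeros to the right of `Y + ε`
  obtain ⟨yA, hyA, hyAY⟩ := exists_lt_of_csInf_lt ⟨_, hA12⟩ (show sInf A < Y + ε by rw [← hY]; linarith)
  obtain ⟨hyA0, TA, hTA⟩ := hyA
  have hZFY : ZF (Y + ε) TA := fun s hs hsT => hTA s (by linarith) hsT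
  -- zeta to the right
  have hZB : ∃ t1 : ℝ, 2 ≤ t1 ∧ ∀ t : ℝ, t1 ≤ t →
      ‖riemannZeta (1 / 2 + ((Y + 2 * ε : ℝ) : ℂ) + t * I)‖ ≤ t ^ ε := by
    have key : ∀ y1 : ℝ, ZB y1 → y1 + ε ≤ Y + 2 * ε → ∃ t1 : ℝ, 2 ≤ t1 ∧ ∀ t : ℝ, t1 ≤ t →
      ‖riemannZeta (1 / 2 + ((Y + 2 * ε : ℝ) : ℂ) + t * I)‖ ≤ t ^ ε := by
      intro y1 hB hle
      obtain ⟨t1, ht1, hs⟩ := hB ε hεp
      refine ⟨t1, ht1, fun t ht => ?_⟩
      have e1 : (1 / 2 + ((Y + 2 * ε : ℝ) : ℂ) + t * I).re = 1 / 2 + (Y + 2 * ε) := by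
        simp
      have e2 : (1 / 2 + ((Y + 2 * ε : ℝ) : ℂ) + t * I).im = t := by
        simp
      have := (hs (1 / 2 + ((Y + 2 * ε : ℝ) : ℂ) + t * I) (by rw [e1]; linarith) (by rw [e2]; exact ht)).2.2.2
      rwa [e2] at this
    by_cases hlt : Y + ε < 1 / 2
    · exact key (Y + ε) (h1 (Y + ε) TA (by linarith) hlt hZFY) (by linarith)
    · exact key (1 / 2) h2 (by push Not at hlt; linarith)
  obtain ⟨t1, ht1, hzr⟩ := hZB
  obtain ⟨C0, hC0, hOr⟩ := hOrd ε hεp
  obtain ⟨C', TP, hC', hTP, hPL⟩ := h3 (Y + 2 * ε) (μ + ε) ε (C0 + 1) t1 (by linarith) (by linarith)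
    (by linarith) (by linarith) hεp.le (by linarith) (by linarith) (by linarith)
    (fun t ht => (hOr t (by linarith)).trans (by
      refine mul_le_mul_of_nonneg_right (by linarith) (Real.rpow_nonneg (by linarith) _)))
    (fun t ht => (hzr t ht).trans (by
      have : 0 ≤ t ^ ε := Real.rpow_nonneg (by linarith) _
      nlinarith))
  obtain ⟨TL, hTL, hlow⟩ := h4 h (min (1 / 4) ((y - h) / 2)) ε hh hh1.le
    (lt_min (by norm_num) (by linarith)) (min_le_left _ _) hεp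
  obtain ⟨K, hK, hHH⟩ := h5
  obtain ⟨TH, hTH, hHt⟩ := hHH 1 le_rfl
  -- large height
  have hlarge : ∃ TB : ℝ, ∀ t : ℝ, TB ≤ t → C' * Real.exp K < t ^ (c0 / 2) := by
    have := (tendsto_rpow_atTop (show 0 < c0 / 2 by linarith)).eventually_gt_atTop (C' * Real.exp K)
    obtain ⟨TB, hTB⟩ := Filter.eventually_atTop.mp this
    exact ⟨TB, hTB⟩
  obtain ⟨TB, hTB⟩ := hlarge
  obtain ⟨s, hs1, hs2, hs0⟩ := hzer (max (max TA TP) (max (max TL TH) (max TB (max 2 (T1 + 20)))))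
  set t := s.im with ht
  have htA : TA ≤ t := (le_max_left _ _).trans ((le_max_left _ _).trans hs2)
  have htP : TP ≤ t := (le_max_right _ _).trans ((le_max_left _ _).trans hs2)
  have htL : TL ≤ t := (le_max_left _ _).trans ((le_max_left _ _).trans ((le_max_right _ _).trans hs2))
  have htH : TH ≤ t := (le_max_right _ _).trans ((le_max_left _ _).trans ((le_max_right _ _).trans hs2))
  have htB : TB ≤ t := (le_max_left _ _).trans ((le_max_right _ _).trans ((le_max_right _ _).trans hs2))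
  have ht2 : 2 ≤ t := (le_max_left _ _).trans ((le_max_right _ _).trans ((le_max_right _ _).trans
    ((le_max_right _ _).trans hs2)))
  have ht20 : T1 + 20 ≤ t := (le_max_right _ _).trans ((le_max_right _ _).trans
    ((le_max_right _ _).trans ((le_max_right _ _).trans hs2)))
  have htp : 0 < t := by linarith
  set xp : ℝ := s.re - 1 / 2 with hxp
  have hx1 : Y - ε < xp := by rw [hxp]; linarith
  have hx2 : xp ≤ Y + ε := by
    by_contra hgt
    push Not at hgt
    exact hZFY s (by rw [hxp] at hgt; linarith) htA hs0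
  have hx3 : xp < 1 / 2 := by
    by_contra hge
    push Not at hge
    exact riemannZeta_ne_zero_of_one_le_re (s := s) (by rw [hxp] at hge; linarith) hs0
  -- the zero of `XX`
  have hseq : (1 / 2 + (I * t + (xp : ℂ))) = s := by
    apply Complex.ext
    · simp [hxp]
    · simp [ht]
  have hXXp : XX (I * t + (xp : ℂ)) = 0 := by
    rw [Pool.Agent.H24R2.JP.ZetaTask.part1 _ (by simpa using htp), hseq, hs0, mul_zero]
  -- lower bound
  have hu := hlow t ω htL hω (fun z hz hzt => hOL z hz (by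
    have := (abs_le.mp hzt).1
    exact (show T1 ≤ z.im by linarith).trans (le_abs_self _))) ((xp - h : ℝ) : ℂ)
    (by rw [Complex.ofReal_re]; exact (min_le_right _ _).trans (by linarith))
    (by rw [Complex.ofReal_re]; linarith) (by rw [Complex.ofReal_im]; simp)
  have eTX : TX h ω (I * t + ((xp - h : ℝ) : ℂ)) = ω * XX (I * t + ((xp - 2 * h : ℝ) : ℂ)) := by
    unfold TX
    have a1 : I * t + ((xp - h : ℝ) : ℂ) + h = I * t + (xp : ℂ) := by push_cast; ring
    have a2 : I * t + ((xp - h : ℝ) : ℂ) - h = I * t + ((xp - 2 * h : ℝ) : ℂ) := by push_cast; ring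
    rw [a1, a2, hXXp, zero_add]
  have eu : ((xp - h : ℝ) : ℂ) + h = (xp : ℂ) := by push_cast; ring
  rw [eTX, norm_mul, hω, one_mul, XX_abs, eu] at hu
  have hHlow := (hHt t (xp : ℂ) htH (by
    rw [Complex.norm_real, Real.norm_eq_abs, abs_le]; constructor <;> linarith)).2.2.2.1
  have hHne : HH (I * t) ≠ 0 := by
    have := (hHt t 0 htH (by simp)).2.1
    simpa using this
  have hHpos : 0 < ‖HH (I * t)‖ := norm_pos_iff.mpr hHne
  set b : ℝ := |xp - 2 * h| with hb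
  have hb0 : 0 ≤ b := abs_nonneg _
  have hbx : b ≤ Y + 2 * ε := by
    rw [hb, abs_le]; constructor <;> linarith
  have hup := hPL t b htP hb0 hbx
  have hchain : t ^ (-ε) * (Real.exp (Om t * xp - K) * ‖HH (I * t)‖) ≤
      C' * t ^ ((1 - b / (Y + 2 * ε)) * (μ + ε) + b / (Y + 2 * ε) * ε) *
        (Real.exp (b * Om t) * ‖HH (I * t)‖) := by
    refine le_trans ?_ (hu.trans hup)
    refine mul_le_mul_of_nonneg_left ?_ (Real.rpow_nonneg htp.le _)
    simpa using hHlow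
  have hexp := expo Y y h μ ε c0 (Y + 2 * ε) xp b hμ0 hμy hyY rfl (by linarith) hεp (by linarith) hy0
    (by linarith) hh hc0 hx1 hx2 hb
  set E2 := (1 - b / (Y + 2 * ε)) * (μ + ε) + b / (Y + 2 * ε) * ε with hE2
  rw [exp_Om t b htp, show Om t * xp - K = xp * Om t + -K by ring, Real.exp_add, exp_Om t xp htp] at hchain
  have hchain2 : t ^ (xp / 2 - ε) ≤ C' * Real.exp K * t ^ (b / 2 + E2) := by
    have e1 : t ^ (-ε) * (t ^ (xp / 2) * Real.exp (-K) * ‖HH (I * t)‖) =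
        (t ^ (xp / 2 - ε) * Real.exp (-K)) * ‖HH (I * t)‖ := by
      rw [show xp / 2 - ε = -ε + xp / 2 by ring, Real.rpow_add htp]; ring
    have e2 : C' * t ^ E2 * (t ^ (b / 2) * ‖HH (I * t)‖) =
        (C' * t ^ (b / 2 + E2)) * ‖HH (I * t)‖ := by
      rw [Real.rpow_add htp (b / 2) E2]; ring
    rw [e1, e2] at hchain
    have h' := le_of_mul_le_mul_right hchain hHpos
    have e3 : t ^ (xp / 2 - ε) = (t ^ (xp / 2 - ε) * Real.exp (-K)) * Real.exp K := by
      rw [mul_assoc, ← Real.exp_add]; simp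
    rw [e3]
    calc (t ^ (xp / 2 - ε) * Real.exp (-K)) * Real.exp K ≤ (C' * t ^ (b / 2 + E2)) * Real.exp K :=
          mul_le_mul_of_nonneg_right h' (Real.exp_pos _).le
      _ = C' * Real.exp K * t ^ (b / 2 + E2) := by ring
  have hge : t ^ (c0 / 2) * t ^ (b / 2 + E2) ≤ t ^ (xp / 2 - ε) := by
    rw [← Real.rpow_add htp]
    exact Real.rpow_le_rpow_of_exponent_le (by linarith) (by linarith)
  have hBt := hTB t htB
  have hpos : 0 < t ^ (b / 2 + E2) := Real.rpow_pos_of_pos htp _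
  have := mul_lt_mul_of_pos_right hBt hpos
  linarith

end Pool.Agent.H986R2.TR
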