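import Pool.Agent.H986R2.TR.Spec
import Pool.Agent.H24R2.JP.Had
import Pool.Agent.H24R2.JP.B1
import Pool.Agent.H24R2.JP.Grow
import Pool.Agent.H24R2.JP.Gam
import Pool.Agent.H24R2.JP.Mom

set_option autoImplicit false

/-!
# Hadamard product inequality for `XX (z + h)` and `XX (z - h)`
-/

namespace Pool.Agent.H986R2.TR

open Complex Filter Topology MeasureTheory Set
open Pool.Agent.H24R2.JP (XX HH Om)
open Pool.Agent.H986R2.K4 (ZB S_SAB S_HH S_PL S_VDC S_V0 S_A1 xi)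

namespace TPAux

open Polynomial
open Pool.Agent.H24R2.JP (FF gam)

/-- real inequality for one pair of factors -/
theorem realIneq {x h b V : ℝ} (hx : 0 ≤ x) (hh : 0 ≤ h) (hb : b ^ 2 ≤ x ^ 2 + h ^ 2) :
    ((x - h - b) ^ 2 + V ^ 2) * ((x - h + b) ^ 2 + V ^ 2) ≤
      ((x + h - b) ^ 2 + V ^ 2) * ((x + h + b) ^ 2 + V ^ 2) := by
  have e : ((x + h - b) ^ 2 + V ^ 2) * ((x + h + b) ^ 2 + V ^ 2) -
      ((x - h - b) ^ 2 + V ^ 2) * ((x - h + b) ^ 2 + V ^ 2) =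
      8 * (x * h) * (x ^ 2 + h ^ 2 - b ^ 2 + V ^ 2) := by ring
  have h1 : 0 ≤ 8 * (x * h) * (x ^ 2 + h ^ 2 - b ^ 2 + V ^ 2) := by
    apply mul_nonneg (by positivity)
    nlinarith [sq_nonneg V]
  linarith

theorem normsq_eq (w ρ : ℂ) :
    (‖w ^ 2 - ρ ^ 2‖ * ‖(starRingEnd ℂ) (w ^ 2) - ρ ^ 2‖) ^ 2 =
      (((w.re - ρ.re) ^ 2 + (w.im - ρ.im) ^ 2) * ((w.re + ρ.re) ^ 2 + (w.im - ρ.im) ^ 2)) *
      (((w.re - ρ.re) ^ 2 + (w.im + ρ.im) ^ 2) * ((w.re + ρ.re) ^ 2 + (w.im + ρ.im) ^ 2)) := by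
  rw [mul_pow, Complex.sq_norm, Complex.sq_norm, Complex.normSq_apply, Complex.normSq_apply]
  simp only [sq, Complex.sub_re, Complex.sub_im, Complex.mul_re, Complex.mul_im, Complex.conj_re,
    Complex.conj_im, map_mul]
  ring

/-- inequality for one root -/
theorem rootIneq {z ρ : ℂ} {h : ℝ} (hx : 0 ≤ z.re) (hh : 0 ≤ h)
    (hb : ρ.re ^ 2 ≤ z.re ^ 2 + h ^ 2) :
    ‖(z - h) ^ 2 - ρ ^ 2‖ * ‖(starRingEnd ℂ) ((z - h) ^ 2) - ρ ^ 2‖ ≤
      ‖(z + h) ^ 2 - ρ ^ 2‖ * ‖(starRingEnd ℂ) ((z + h) ^ 2) - ρ ^ 2‖ := by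
  refine (pow_le_pow_iff_left₀ (by positivity) (by positivity) two_ne_zero).1 ?_
  rw [normsq_eq, normsq_eq]
  have e1 : (z - (h : ℂ)).re = z.re - h := by simp
  have e2 : (z - (h : ℂ)).im = z.im := by simp
  have e3 : (z + (h : ℂ)).re = z.re + h := by simp
  have e4 : (z + (h : ℂ)).im = z.im := by simp
  rw [e1, e2, e3, e4]
  have h1 := realIneq (V := z.im - ρ.im) hx hh hb
  have h2 := realIneq (V := z.im + ρ.im) hx hh hb
  exact mul_le_mul h1 h2 (by positivity) (by positivity)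

theorem norm_prod_ms (s : Multiset ℂ) : ‖s.prod‖ = (s.map fun a => ‖a‖).prod := by
  induction s using Multiset.induction_on with
  | empty => simp
  | cons a s ih => rw [Multiset.prod_cons, norm_mul, ih, Multiset.map_cons, Multiset.prod_cons]

/-- the modulus of a real polynomial through its roots -/
theorem sq_eval (P : ℝ[X]) (u : ℂ) :
    ‖aeval u P‖ ^ 2 = ‖(P.map (algebraMap ℝ ℂ)).leadingCoeff‖ ^ 2 *
      ((P.map (algebraMap ℝ ℂ)).roots.map
        (fun a => ‖u - a‖ * ‖(starRingEnd ℂ) u - a‖)).prod := by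
  set p := P.map (algebraMap ℝ ℂ) with hp
  have hs : p.Splits := IsAlgClosed.splits p
  have hev : ∀ v : ℂ, ‖aeval v P‖ = ‖p.leadingCoeff‖ * (p.roots.map (fun a => ‖v - a‖)).prod := by
    intro v
    rw [← eval_map_algebraMap, ← hp, hs.eval_eq_prod_roots, norm_mul]
    congr 1
    rw [norm_prod_ms, Multiset.map_map]
    rfl
  have hconj : ‖aeval ((starRingEnd ℂ) u) P‖ = ‖aeval u P‖ := by
    rw [Polynomial.aeval_conj, RCLike.norm_conj]
  calc ‖aeval u P‖ ^ 2 = ‖aeval u P‖ * ‖aeval ((starRingEnd ℂ) u) P‖ := by rw [hconj, sq]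
    _ = _ := by
      rw [hev, hev, Multiset.prod_map_mul]
      ring

/-- the polynomial inequality -/
theorem polyIneq (P : ℝ[X]) {z : ℂ} {h : ℝ} (hx : 0 ≤ z.re) (hh : 0 ≤ h)
    (hroot : ∀ a : ℂ, aeval a P = 0 → ∃ ρ : ℂ, a = ρ ^ 2 ∧ ρ.re ^ 2 ≤ z.re ^ 2 + h ^ 2) :
    ‖aeval ((z - h) ^ 2) P‖ ≤ ‖aeval ((z + h) ^ 2) P‖ := by
  refine (pow_le_pow_iff_left₀ (by positivity) (by positivity) two_ne_zero).1 ?_
  rw [sq_eval, sq_eval]
  apply mul_le_mul_of_nonneg_left _ (by positivity)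
  apply Multiset.prod_map_le_prod_map₀
  · intro a _
    positivity
  · intro a ha
    have h1 : aeval a P = 0 := by
      have h2 := (Polynomial.mem_roots'.1 ha).2
      rwa [IsRoot.def, eval_map_algebraMap] at h2
    obtain ⟨ρ, rfl, hb⟩ := hroot a h1
    exact rootIneq hx hh hb

theorem FF0 : FF 0 ≠ 0 := by
  have h1 := Pool.Agent.H24R2.JP.b1.2.2.2 0
  rw [iteratedDeriv_zero] at h1
  rw [h1]
  exact_mod_cast ((Pool.Agent.H24R2.JP.gamS Pool.Agent.H24R2.JP.mom).1 0).ne'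

theorem XX_eq (z : ℂ) : XX z = FF (z ^ 2) := (Pool.Agent.H24R2.JP.b1.2.1 z).symm

theorem XX_diff : Differentiable ℂ XX := by
  have h2 : XX = FF ∘ fun z : ℂ => z ^ 2 := by
    funext z
    exact XX_eq z
  rw [h2]
  exact Pool.Agent.H24R2.JP.b1.1.comp (by fun_prop)

theorem weak {h x0 : ℝ} (hh : 0 < h) (hx0 : 0 ≤ x0)
    (hz : ∀ ρ : ℂ, XX ρ = 0 → ρ.re ^ 2 ≤ x0 ^ 2 + h ^ 2) (z : ℂ) (hzr : x0 < z.re) :
    ‖XX (z - h)‖ ≤ ‖XX (z + h)‖ := by
  obtain ⟨K, hK⟩ := Pool.Agent.H24R2.JP.grow Pool.Agent.H24R2.JP.b1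
  obtain ⟨P, hP, hlim⟩ := Pool.Agent.H24R2.JP.had FF K Pool.Agent.H24R2.JP.b1.1 FF0
    Pool.Agent.H24R2.JP.b1.2.2.1 hK
  have l1 : Tendsto (fun N => ‖aeval ((z - h) ^ 2) (P N)‖) atTop (𝓝 ‖XX (z - h)‖) := by
    rw [XX_eq]
    exact ((hlim.tendstoLocallyUniformlyOn (s := univ)).tendsto_at (mem_univ ((z - h) ^ 2))).norm
  have l2 : Tendsto (fun N => ‖aeval ((z + h) ^ 2) (P N)‖) atTop (𝓝 ‖XX (z + h)‖) := by
    rw [XX_eq]
    exact ((hlim.tendstoLocallyUniformlyOn (s := univ)).tendsto_at (mem_univ ((z + h) ^ 2))).norm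
  refine le_of_tendsto_of_tendsto' l1 l2 (fun N => ?_)
  refine polyIneq (P N) (by linarith) hh.le (fun a ha => ?_)
  obtain ⟨ρ, hρ'⟩ := IsAlgClosed.exists_pow_nat_eq a (n := 2) (by norm_num)
  have hρ : a = ρ ^ 2 := hρ'.symm
  refine ⟨ρ, hρ, ?_⟩
  have h1 : XX ρ = 0 := by
    rw [XX_eq, ← hρ]
    exact hP N a ha
  have h2 := hz ρ h1
  nlinarith

theorem FF_hasSum (x : ℂ) :
    HasSum (fun k : ℕ => ((gam k : ℝ) : ℂ) / (k.factorial : ℂ) * x ^ k) (FF x) := by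
  obtain ⟨hd, -, -, hi⟩ := Pool.Agent.H24R2.JP.b1
  have h2 := Complex.hasSum_taylorSeries_of_entire hd 0 x
  have h3 : (fun k : ℕ => ((gam k : ℝ) : ℂ) / (k.factorial : ℂ) * x ^ k) =
      (fun n : ℕ => (n.factorial : ℂ)⁻¹ • (x - 0) ^ n • iteratedDeriv n FF 0) := by
    funext n
    rw [hi n, sub_zero, smul_eq_mul, smul_eq_mul]
    ring
  rw [h3]; exact h2

theorem FF_real (r : ℝ) (hr : 0 ≤ r) :
    HasSum (fun k : ℕ => gam k / (k.factorial : ℝ) * r ^ k) ‖FF r‖ := by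
  have hg := (Pool.Agent.H24R2.JP.gamS Pool.Agent.H24R2.JP.mom).1
  have h1 := FF_hasSum (r : ℂ)
  have e1 : (fun k : ℕ => ((gam k : ℝ) : ℂ) / (k.factorial : ℂ) * (r : ℂ) ^ k) =
      fun k : ℕ => ((gam k / (k.factorial : ℝ) * r ^ k : ℝ) : ℂ) := by
    funext k
    push_cast
    ring
  rw [e1] at h1
  have hre := Complex.hasSum_re h1
  have him := Complex.hasSum_im h1
  simp only [Complex.ofReal_re] at hre
  simp only [Complex.ofReal_im] at him
  have him0 : (FF r).im = 0 := (hasSum_zero.unique him).symm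
  have hre0 : 0 ≤ (FF r).re := by
    refine hre.nonneg (fun k => ?_)
    have := hg k
    positivity
  have hn : ‖FF r‖ = (FF r).re := by
    have : FF r = (((FF r).re : ℝ) : ℂ) := by
      apply Complex.ext
      · simp
      · simp [him0]
    rw [this, Complex.norm_real, Real.norm_of_nonneg (by simpa using hre0)]
    simp
  rw [hn]
  exact hre

theorem FF_lt {r r' : ℝ} (hr : 0 ≤ r) (hrr : r < r') : ‖FF r‖ < ‖FF r'‖ := by
  have hg := (Pool.Agent.H24R2.JP.gamS Pool.Agent.H24R2.JP.mom).1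
  refine hasSum_lt (i := 1) (fun k => ?_) ?_ (FF_real r hr) (FF_real r' (hr.trans hrr.le))
  · have := hg k
    apply mul_le_mul_of_nonneg_left _ (by positivity)
    exact pow_le_pow_left₀ hr hrr.le k
  · have := hg 1
    simp only [pow_one]
    exact mul_lt_mul_of_pos_left hrr (by positivity)

end TPAux

open TPAux in
theorem tp : S_TP := by
  intro h x0 hh hx0 hz z hzr
  have hw := weak hh hx0 hz
  rcases (hw z hzr).lt_or_eq with hlt | heq
  · exact hlt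
  exfalso
  set U : Set ℂ := {w : ℂ | x0 < w.re} with hU
  have hUo : IsOpen U := isOpen_lt continuous_const Complex.continuous_re
  have hUc : IsPreconnected U := (convex_halfSpace_re_gt x0).isPreconnected
  have hne : ∀ w ∈ U, XX (w + h) ≠ 0 := by
    intro w hw' h0
    have h1 := hz _ h0
    have e : (w + (h : ℂ)).re = w.re + h := by simp
    rw [e] at h1
    have h2 : x0 < w.re := hw'
    nlinarith
  set q : ℂ → ℂ := fun w => XX (w - h) / XX (w + h) with hq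
  have hqd : DifferentiableOn ℂ q U := by
    apply DifferentiableOn.div
    · exact (XX_diff.comp (by fun_prop : Differentiable ℂ fun w : ℂ => w - h)).differentiableOn
    · exact (XX_diff.comp (by fun_prop : Differentiable ℂ fun w : ℂ => w + h)).differentiableOn
    · exact hne
  have hqz : ‖q z‖ = 1 := by
    have h0 := hne z hzr
    simp only [hq]
    rw [norm_div, heq, div_self (norm_ne_zero_iff.2 h0)]
  have hmax : IsMaxOn (norm ∘ q) U z := by
    intro w hw'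
    simp only [Function.comp, mem_ofPred_eq]
    rw [hqz]
    simp only [hq]
    rw [norm_div]
    exact div_le_one_of_le₀ (hw w hw') (norm_nonneg _)
  have hconst := Complex.norm_eqOn_of_isPreconnected_of_isMaxOn hUc hUo hqd hzr hmax
  set x2 : ℝ := max x0 h + 1 with hx2
  have hx2a : x0 < x2 := by
    have := le_max_left x0 h
    linarith
  have hx2b : h < x2 := by
    have := le_max_right x0 h
    linarith
  have hx2U : ((x2 : ℝ) : ℂ) ∈ U := by
    simp only [hU, mem_ofPred_eq, Complex.ofReal_re]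
    exact hx2a
  have h1 := hconst hx2U
  simp only [Function.comp, Function.const] at h1
  rw [hqz] at h1
  have h2 : ‖XX ((x2 : ℂ) - h)‖ = ‖XX ((x2 : ℂ) + h)‖ := by
    simp only [hq] at h1
    rw [norm_div, div_eq_one_iff_eq (norm_ne_zero_iff.2 (hne _ hx2U))] at h1
    exact h1
  have h3 : ‖XX ((x2 : ℂ) - h)‖ < ‖XX ((x2 : ℂ) + h)‖ := by
    rw [XX_eq, XX_eq]
    have e1 : ((x2 : ℂ) - h) ^ 2 = (((x2 - h) ^ 2 : ℝ) : ℂ) := by push_cast; ring
    have e2 : ((x2 : ℂ) + h) ^ 2 = (((x2 + h) ^ 2 : ℝ) : ℂ) := by push_cast; ring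
    rw [e1, e2]
    apply FF_lt (by positivity)
    nlinarith
  linarith

end Pool.Agent.H986R2.TR
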